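import Mathlib

/-!
# Alternating sums along a truncated Jacobi triple product

For `1 ≤ S`, `2 S < g` put `f j = S (2 j + 1)`, `v j = g (j + 1) - S`.  For a function `p` on the
integers, zero at negative integers, `Hf` is the sum
`p y - p (y - f j) - (p (y - v j) - p (y - v j - f (j+1))) + ...`.
If `D * p y` is a quadratic polynomial plus a periodic function for `y ≥ 0`, the sum is
computed up to a bound that is conserved along the recursion.
-/

namespace Pool.Agent.Q41.TT

/-- the gap inside a pair of terms -/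
def fj (S j : ℤ) : ℤ := S * (2 * j + 1)

/-- the gap between two pairs of terms -/
def vj (S g j : ℤ) : ℤ := g * (j + 1) - S

/-- the alternating sum, with a fuel argument -/
def Hf (S g : ℤ) (p : ℤ → ℤ) : ℕ → ℤ → ℤ → ℤ
  | 0, _, _ => 0
  | n + 1, j, y => p y - p (y - fj S j) - Hf S g p n (j + 1) (y - vj S g j)

/-- the polynomial part of the sum -/
def Am (S g s j y : ℤ) : ℤ := S * j * (2 * y + (g - 2 * S) * j + s + g - S)

/-- twice the conserved quantity -/
def Nc (S g j y : ℤ) : ℤ := 2 * y + g * j * (j + 1) - 2 * S * j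

lemma Nc_step (S g j y : ℤ) : Nc S g (j + 1) (y - vj S g j) = Nc S g j y := by
  unfold Nc vj; ring

lemma Am_step (S g s j y : ℤ) :
    Am S g s j y + Am S g s (j + 1) (y - vj S g j) =
      (y ^ 2 + s * y) - ((y - fj S j) ^ 2 + s * (y - fj S j)) := by
  unfold Am vj fj; ring

lemma fj_pos {S j : ℤ} (hS : 1 ≤ S) (hj : 0 ≤ j) : 1 ≤ fj S j := by
  unfold fj; nlinarith

lemma vj_ge {S g j : ℤ} (_hS : 1 ≤ S) (hg : 2 * S < g) (hj : 0 ≤ j) : fj S j + 1 ≤ vj S g j := by
  unfold fj vj; nlinarith

lemma Hf_neg {S g : ℤ} {p : ℤ → ℤ} (hS : 1 ≤ S) (hg : 2 * S < g) (hp0 : ∀ y < 0, p y = 0) :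
    ∀ (n : ℕ) (j y : ℤ), 0 ≤ j → y < 0 → Hf S g p n j y = 0 := by
  intro n
  induction n with
  | zero => intro j y _ _; rfl
  | succ n ih =>
    intro j y hj hy
    have h1 := fj_pos hS hj
    have h2 := vj_ge hS hg hj
    simp only [Hf]
    rw [hp0 y hy, hp0 _ (by omega), ih (j + 1) _ (by omega) (by omega)]
    ring

theorem bound {S g D s κ : ℤ} {p er : ℤ → ℤ} {Φ : ℤ → ℤ → ℤ}
    (hS : 1 ≤ S) (hg : 2 * S < g)
    (hp0 : ∀ y < 0, p y = 0)
    (hp : ∀ y, 0 ≤ y → D * p y = y ^ 2 + s * y + D + er y)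
    (hΦ : ∀ j y, Φ j y + Φ (j + 1) (y - vj S g j) = er y - er (y - fj S j))
    (hb : ∀ j z, 0 ≤ j → 1 ≤ z → z ≤ (g - 2 * S) * (j + 1) →
      |g * (Am S g s (j + 1) (-z) + Φ (j + 1) (-z))| ≤ S * (g - S) * Nc S g (j + 1) (-z) + κ)
    (hc : ∀ j y, 0 ≤ j → 0 ≤ y → y < fj S j →
      |g * (y ^ 2 + s * y + D + er y - Am S g s j y - Φ j y)| ≤ S * (g - S) * Nc S g j y + κ) :
    ∀ (n : ℕ) (j y : ℤ), 0 ≤ j → 0 ≤ y → y < n →
      |g * (D * Hf S g p n j y - Am S g s j y - Φ j y)| ≤ S * (g - S) * Nc S g j y + κ := by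
  intro n
  induction n with
  | zero => intro j y _ hy hn; simp at hn; omega
  | succ n ih =>
    intro j y hj hy hn
    have h1 := fj_pos hS hj
    have h2 := vj_ge hS hg hj
    simp only [Hf]
    rcases lt_or_ge y (fj S j) with hyf | hyf
    · rw [hp0 (y - fj S j) (by omega), Hf_neg hS hg hp0 n (j + 1) _ (by omega) (by omega)]
      have h3 := hc j y hj hy hyf
      rw [show D * (p y - 0 - 0) = D * p y by ring, hp y hy]
      exact h3
    · rcases lt_or_ge y (vj S g j) with hyv | hyv
      · rw [Hf_neg hS hg hp0 n (j + 1) _ (by omega) (by omega)]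
        have e1 : D * (p y - p (y - fj S j) - 0) - Am S g s j y - Φ j y =
            Am S g s (j + 1) (y - vj S g j) + Φ (j + 1) (y - vj S g j) := by
          have := hp y hy
          have h4 := hp (y - fj S j) (by omega)
          have h5 := hΦ j y
          have h6 := Am_step S g s j y
          linear_combination this - h4 - h5 - h6
        rw [e1]
        have h7 := hb j (vj S g j - y) hj (by omega) (by
          have : vj S g j - fj S j = (g - 2 * S) * (j + 1) := by unfold vj fj; ring
          omega)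
        rw [show -(vj S g j - y) = y - vj S g j by ring, Nc_step] at h7
        exact h7
      · have e1 : D * (p y - p (y - fj S j) - Hf S g p n (j + 1) (y - vj S g j)) -
            Am S g s j y - Φ j y =
            -(D * Hf S g p n (j + 1) (y - vj S g j) - Am S g s (j + 1) (y - vj S g j) -
              Φ (j + 1) (y - vj S g j)) := by
          have := hp y hy
          have h4 := hp (y - fj S j) (by omega)
          have h5 := hΦ j y
          have h6 := Am_step S g s j y
          linear_combination this - h4 - h5 - h6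
        rw [e1, mul_neg, abs_neg]
        have h8 := ih (j + 1) (y - vj S g j) (by omega) (by omega) (by push_cast at hn; omega)
        rw [Nc_step] at h8
        exact h8

/-- the value for small arguments -/
lemma Hf_small {S g : ℤ} {p : ℤ → ℤ} (hS : 1 ≤ S) (hg : 2 * S < g) (hp0 : ∀ y < 0, p y = 0)
    (n : ℕ) (j y : ℤ) (hj : 0 ≤ j) (hy : y < fj S j) : Hf S g p (n + 1) j y = p y := by
  have h2 := vj_ge hS hg hj
  simp only [Hf]
  rw [hp0 (y - fj S j) (by omega), Hf_neg hS hg hp0 n (j + 1) _ (by omega) (by omega)]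
  ring

/-- the fuel is irrelevant -/
lemma Hf_fuel {S g : ℤ} {p : ℤ → ℤ} (hS : 1 ≤ S) (hg : 2 * S < g) (hp0 : ∀ y < 0, p y = 0) :
    ∀ (n m : ℕ) (j y : ℤ), 0 ≤ j → y < n → y < m → Hf S g p n j y = Hf S g p m j y := by
  intro n
  induction n with
  | zero =>
    intro m j y hj hn hm
    rw [Hf_neg hS hg hp0 m j y hj (by simpa using hn)]; rfl
  | succ n ih =>
    intro m j y hj hn hm
    rcases m with _ | m
    · rw [Hf_neg hS hg hp0 (n + 1) j y hj (by simpa using hm)]; rfl
    · have h1 := fj_pos hS hj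
      have h2 := vj_ge hS hg hj
      simp only [Hf]
      rw [ih m (j + 1) (y - vj S g j) (by omega) (by push_cast at hn; omega)
        (by push_cast at hm; omega)]

end Pool.Agent.Q41.TT
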