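import Mathlib
import Pool.Agent.Q41.TT.Eng

/-!
# The power series side

Partitions with restricted parts, removal of parts, and the coefficients of a product
with a truncated theta series.
-/

namespace Pool.Agent.Q41.TT

open PowerSeries

/-- generating function of the partitions all of whose parts satisfy `P` -/
noncomputable def cnt (P : ℕ → Prop) [DecidablePred P] : ℤ⟦X⟧ :=
  PowerSeries.mk fun n => ((Nat.Partition.restricted n P).card : ℤ)

/-- all coefficients are non-negative -/
def Nn (φ : ℤ⟦X⟧) : Prop := ∀ n : ℕ, 0 ≤ coeff n φ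

lemma Nn.mul {φ ψ : ℤ⟦X⟧} (h1 : Nn φ) (h2 : Nn ψ) : Nn (φ * ψ) := by
  intro n
  rw [coeff_mul]
  exact Finset.sum_nonneg fun x _ => mul_nonneg (h1 _) (h2 _)

lemma Nn_cnt (P : ℕ → Prop) [DecidablePred P] : Nn (cnt P) := by
  intro n; simp [cnt]

lemma card_split (P : ℕ → Prop) [DecidablePred P] {a : ℕ} (ha : 1 ≤ a) (hP : P a) (n : ℕ) :
    (Nat.Partition.restricted n P).card =
      (Nat.Partition.restricted n (fun m => P m ∧ m ≠ a)).card +
        (if a ≤ n then (Nat.Partition.restricted (n - a) P).card else 0) := by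
  classical
  have h1 : (Nat.Partition.restricted n P).filter (fun x => a ∉ x.parts) =
      Nat.Partition.restricted n (fun m => P m ∧ m ≠ a) := by
    ext x
    simp only [Nat.Partition.restricted, Finset.mem_filter, Finset.mem_univ, true_and]
    constructor
    · rintro ⟨h, h'⟩ i hi
      exact ⟨h i hi, fun he => h' (he ▸ hi)⟩
    · intro h
      exact ⟨fun i hi => (h i hi).1, fun hi => (h a hi).2 rfl⟩
  have h2 : ((Nat.Partition.restricted n P).filter (fun x => ¬ a ∉ x.parts)).card =
      (if a ≤ n then (Nat.Partition.restricted (n - a) P).card else 0) := by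
    split_ifs with han
    · symm
      refine Finset.card_bij
        (fun x _ => ((Nat.Partition.partitionWithPartEquiv ha han).symm x).1) ?_ ?_ ?_
      · intro x hx
        simp only [Nat.Partition.restricted, Finset.mem_filter, Finset.mem_univ, true_and] at hx ⊢
        rw [Nat.Partition.partitionWithPartEquiv_symm_apply_parts]
        refine ⟨?_, ?_⟩
        · intro i hi
          rcases Multiset.mem_cons.1 hi with h | h
          · exact h ▸ hP
          · exact hx i h
        · simp
      · intro x _ y _ hxy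
        exact (Nat.Partition.partitionWithPartEquiv ha han).symm.injective (Subtype.ext hxy)
      · intro x hx
        simp only [Nat.Partition.restricted, Finset.mem_filter, Finset.mem_univ, true_and,
          not_not] at hx
        refine ⟨Nat.Partition.partitionWithPartEquiv ha han ⟨x, hx.2⟩, ?_, ?_⟩
        · simp only [Nat.Partition.restricted, Finset.mem_filter, Finset.mem_univ, true_and]
          rw [Nat.Partition.partitionWithPartEquiv_apply_parts]
          intro i hi
          exact hx.1 i (Multiset.mem_of_mem_erase hi)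
        · simp
    · rw [Finset.card_eq_zero, Finset.filter_eq_empty_iff]
      intro x _
      simp only [not_not]
      intro h
      exact han (x.le_of_mem_parts h)
  rw [← h1, ← h2]
  exact (Finset.card_filter_add_card_filter_not _).symm

lemma cnt_mul (P : ℕ → Prop) [DecidablePred P] {a : ℕ} (ha : 1 ≤ a) (hP : P a) :
    cnt P * (1 - X ^ a) = cnt (fun m => P m ∧ m ≠ a) := by
  ext n
  rw [mul_sub, mul_one, map_sub, coeff_mul_X_pow']
  simp only [cnt, coeff_mk]
  rw [card_split P ha hP n]
  split_ifs <;> push_cast <;> ring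

/-- the series of an integer function -/
noncomputable def sr (p : ℤ → ℤ) : ℤ⟦X⟧ := PowerSeries.mk fun n => p n

lemma sr_mul {p q : ℤ → ℤ} {c : ℕ} (hp0 : ∀ y < 0, p y = 0)
    (h : ∀ n : ℕ, p n - p ((n : ℤ) - c) = q n) : sr p * (1 - X ^ c) = sr q := by
  ext n
  rw [mul_sub, mul_one, map_sub, coeff_mul_X_pow']
  simp only [sr, coeff_mk]
  rw [← h n]
  split_ifs with hc
  · push_cast [Nat.cast_sub hc]; ring
  · rw [hp0 ((n : ℤ) - c) (by omega)]

lemma coeff_sr_X (p : ℤ → ℤ) (hp0 : ∀ y < 0, p y = 0) (N m : ℕ) :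
    coeff N (sr p * X ^ m) = p ((N : ℤ) - m) := by
  rw [coeff_mul_X_pow']
  split_ifs with h
  · simp only [sr, coeff_mk]; rw [Nat.cast_sub h]
  · rw [hp0 _ (by omega)]

lemma coeff_mul_zero {φ ψ : ℤ⟦X⟧} {m N : ℕ} (h : ∀ n < m, coeff n ψ = 0) (hN : N < m) :
    coeff N (φ * ψ) = 0 := by
  rw [coeff_mul]
  refine Finset.sum_eq_zero fun x hx => ?_
  have := Finset.HasAntidiagonal.mem_antidiagonal.1 hx
  rw [h x.2 (by omega), mul_zero]

/-- coefficients of a product with a truncated theta series -/
theorem coeff_tail {S g : ℤ} {p : ℤ → ℤ} (hS : 1 ≤ S) (hg : 2 * S < g)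
    (hp0 : ∀ y < 0, p y = 0) {T : ℕ → ℤ⟦X⟧} {e f : ℕ → ℕ}
    (hf : ∀ k, (f k : ℤ) = fj S k)
    (he : ∀ k, (e (k + 1) : ℤ) = e k + vj S g k)
    (hT : ∀ k, T k = X ^ (e k) - X ^ (e k + f k) - T (k + 1))
    (hz : ∀ k N, N < e k → coeff N (T k) = 0) :
    ∀ (n k N : ℕ), (N : ℤ) - e k < n →
      coeff N (sr p * T k) = Hf S g p n k ((N : ℤ) - e k) := by
  intro n
  induction n with
  | zero =>
    intro k N hN
    rw [coeff_mul_zero (hz k) (by push_cast at hN; omega)]; rfl
  | succ n ih =>
    intro k N hN
    have h1 := fj_pos hS (Int.natCast_nonneg k)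
    have h2 := vj_ge hS hg (Int.natCast_nonneg k)
    have h3 := ih (k + 1) N (by rw [he k]; push_cast at hN; omega)
    rw [hT k, mul_sub, mul_sub, map_sub, map_sub, coeff_sr_X p hp0, coeff_sr_X p hp0, h3, he k]
    simp only [Hf]
    push_cast
    rw [hf k, show (N : ℤ) - (e k + fj S k) = N - e k - fj S k by ring,
      show (N : ℤ) - (e k + vj S g k) = N - e k - vj S g k by ring]

end Pool.Agent.Q41.TT
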