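import Mathlib
import Pool.Agent.Q41.TT.Ser

/-!
# Partitions into the parts 1, 4, 9
-/

namespace Pool.Agent.Q41.TT.B

open PowerSeries

/-- periodic correction modulo 4 -/
def u4 (y : ℤ) : ℤ := if y % 4 = 1 then 9 else if y % 4 = 3 then -27 else 0

/-- periodic correction modulo 9 -/
def u9 (y : ℤ) : ℤ := [0, -24, -32, -24, 0, -32, -48, -48, -32].getD (y % 9).toNat 0

/-- number of partitions of `y` into parts `1, 4, 9` -/
def p (y : ℤ) : ℤ := if y < 0 then 0 else (y ^ 2 + 14 * y + 72 + (u4 y + u9 y)) / 72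

/-- parts `1, 4` -/
def p2 (y : ℤ) : ℤ := if y < 0 then 0 else y / 4 + 1

/-- parts `1` -/
def p1 (y : ℤ) : ℤ := if y < 0 then 0 else 1

lemma p_neg : ∀ y < 0, p y = 0 := fun y hy => by simp [p, hy]
lemma p2_neg : ∀ y < 0, p2 y = 0 := fun y hy => by simp [p2, hy]
lemma p1_neg : ∀ y < 0, p1 y = 0 := fun y hy => by simp [p1, hy]

lemma dvd (y : ℤ) : (y ^ 2 + 14 * y + 72 + (u4 y + u9 y)) % 72 = 0 := by
  have h1 : u4 y = u4 (y % 72) := by unfold u4; rw [show y % 72 % 4 = y % 4 by omega]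
  have h2 : u9 y = u9 (y % 72) := by unfold u9; rw [show y % 72 % 9 = y % 9 by omega]
  have h3 : (y ^ 2 + 14 * y + 72 + (u4 y + u9 y)) % 72 =
      ((y % 72) ^ 2 + 14 * (y % 72) + 72 + (u4 (y % 72) + u9 (y % 72))) % 72 := by
    rw [← h1, ← h2]
    have : y ≡ y % 72 [ZMOD 72] := (Int.mod_modEq y 72).symm
    exact (((this.pow 2).add (this.mul_left 14)).add_right 72).add_right _
  rw [h3]
  have h4 : 0 ≤ y % 72 := by omega
  have h5 : y % 72 < 72 := by omega
  generalize y % 72 = r at *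
  interval_cases r <;> decide

lemma p_eq (y : ℤ) (hy : 0 ≤ y) : 72 * p y = y ^ 2 + 14 * y + 72 + (u4 y + u9 y) := by
  have h := dvd y
  rw [p, if_neg (by omega)]
  generalize y ^ 2 + 14 * y + 72 + (u4 y + u9 y) = w at *
  omega

lemma p_step (y : ℤ) : p y - p (y - 9) = p2 y := by
  rcases lt_or_ge y 0 with h | h
  · rw [p_neg y h, p_neg _ (by omega), p2_neg y h]; rfl
  rcases lt_or_ge y 9 with h5 | h5
  · interval_cases y <;> decide
  · have e1 := p_eq y h
    have e2 := p_eq (y - 9) (by omega)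
    have e3 : p2 y = y / 4 + 1 := by rw [p2, if_neg (by omega)]
    have e4 : u9 (y - 9) = u9 y := by unfold u9; rw [show (y - 9) % 9 = y % 9 by omega]
    have e5 : 72 * (p y - p (y - 9)) = 18 * y + 45 + (u4 y - u4 (y - 9)) := by
      rw [mul_sub, e1, e2, e4]; ring
    have e6 : u4 y - u4 (y - 9) = 72 * (y / 4) + 27 - 18 * y := by
      unfold u4; split_ifs <;> omega
    rw [e3]; omega

lemma p2_step (y : ℤ) : p2 y - p2 (y - 4) = p1 y := by
  unfold p2 p1; split_ifs <;> omega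

lemma p1_step (y : ℤ) : p1 y - p1 (y - 1) = if y = 0 then 1 else 0 := by
  unfold p1; split_ifs <;> omega

lemma sr_one {q : ℤ → ℤ} (h : ∀ n : ℕ, q n = if (n : ℤ) = 0 then 1 else 0) : sr q = 1 := by
  ext n
  rw [sr, coeff_mk, h n, coeff_one]
  simp

lemma sr_p : sr p * (1 - X ^ 9) * (1 - X ^ 4) * (1 - X ^ 1) = 1 := by
  rw [sr_mul (c := 9) (q := p2) p_neg (fun n => by exact_mod_cast p_step n),
    sr_mul (c := 4) (q := p1) p2_neg (fun n => by exact_mod_cast p2_step n),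
    sr_mul (c := 1) (q := fun y => if y = 0 then 1 else 0) p1_neg
      (fun n => by exact_mod_cast p1_step n)]
  exact sr_one fun n => rfl

/-- a generating function with the parts `1, 4, 9` is divisible by the series of `p` -/
lemma cnt_div (P : ℕ → Prop) [DecidablePred P] (h1 : P 1) (h4 : P 4) (h9 : P 9) :
    ∃ R : ℤ⟦X⟧, Nn R ∧ cnt P = R * sr p := by
  have e1 := cnt_mul P (a := 9) (by norm_num) h9
  have e2 := cnt_mul (fun m => P m ∧ m ≠ 9) (a := 4) (by norm_num) ⟨h4, by norm_num⟩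
  have e3 := cnt_mul (fun m => (P m ∧ m ≠ 9) ∧ m ≠ 4) (a := 1) (by norm_num)
    ⟨⟨h1, by norm_num⟩, by norm_num⟩
  refine ⟨cnt (fun m => ((P m ∧ m ≠ 9) ∧ m ≠ 4) ∧ m ≠ 1), Nn_cnt _, ?_⟩
  rw [← e3, ← e2, ← e1]
  calc cnt P = cnt P * (sr p * (1 - X ^ 9) * (1 - X ^ 4) * (1 - X ^ 1)) := by rw [sr_p, mul_one]
    _ = _ := by ring

lemma u4_bd (y : ℤ) : -27 ≤ u4 y ∧ u4 y ≤ 9 := by unfold u4; split_ifs <;> omega

lemma u9_bd (y : ℤ) : -48 ≤ u9 y ∧ u9 y ≤ 0 := by
  unfold u9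
  have h1 : 0 ≤ y % 9 := by omega
  have h2 : y % 9 < 9 := by omega
  generalize y % 9 = a at *
  interval_cases a <;> decide

lemma p_nonneg (y : ℤ) : 0 ≤ p y := by
  rcases lt_or_ge y 0 with h | h
  · rw [p_neg y h]
  · have h1 := p_eq y h
    have h3 := u4_bd y
    have h4 := u9_bd y
    rcases lt_or_ge y 1 with h5 | h5
    · have : y = 0 := by omega
      rw [this]; decide
    · nlinarith

lemma p_mono_one (y : ℤ) : p (y - 1) ≤ p y := by
  rcases lt_or_ge y 1 with h | h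
  · rw [p_neg (y - 1) (by omega)]; exact p_nonneg y
  rcases lt_or_ge y 60 with h5 | h5
  · interval_cases y <;> decide
  · have e1 := p_eq y (by omega)
    have e2 := p_eq (y - 1) (by omega)
    have h3 := u4_bd y
    have h4 := u9_bd y
    have h3' := u4_bd (y - 1)
    have h4' := u9_bd (y - 1)
    nlinarith

lemma p_mono {x y : ℤ} (h : x ≤ y) : p x ≤ p y := by
  obtain ⟨n, hn⟩ : ∃ n : ℕ, y = x + n := ⟨(y - x).toNat, by omega⟩
  subst hn
  clear h
  induction n with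
  | zero => simp
  | succ n ih =>
    refine ih.trans ?_
    have := p_mono_one (x + (n + 1 : ℕ))
    rwa [show x + ((n + 1 : ℕ) : ℤ) - 1 = x + n by push_cast; ring] at this

end Pool.Agent.Q41.TT.B
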