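import Mathlib
import Pool.Agent.Q41.TT.Eng

/-!
# Tables and finite computations
-/

namespace Pool.Agent.Q41.TT

/-- entry of a table of residues -/
def tb (rows : List (List ℤ)) (d j y : ℤ) : ℤ :=
  (rows.getD (j % d).toNat []).getD (y % d).toNat 0

/-- the alternating sum, stopping at negative arguments -/
def Hc (S g : ℤ) (p : ℤ → ℤ) : ℕ → ℤ → ℤ → ℤ
  | 0, _, _ => 0
  | n + 1, j, y => if y < 0 then 0 else
      p y - p (y - fj S j) - Hc S g p n (j + 1) (y - vj S g j)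

lemma Hc_eq {S g : ℤ} {p : ℤ → ℤ} (hS : 1 ≤ S) (hg : 2 * S < g) (hp0 : ∀ y < 0, p y = 0) :
    ∀ (n : ℕ) (j y : ℤ), 0 ≤ j → Hc S g p n j y = Hf S g p n j y := by
  intro n
  induction n with
  | zero => intro j y _; rfl
  | succ n ih =>
    intro j y hj
    simp only [Hc]
    split_ifs with h
    · exact (Hf_neg hS hg hp0 (n + 1) j y hj h).symm
    · simp only [Hf]
      rw [ih (j + 1) _ (by omega)]

/-- finite check -/
def chk (S g : ℤ) (p : ℤ → ℤ) (fuel : ℕ) (j : ℤ) (B : ℕ) : Bool :=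
  (List.range B).all fun y => decide (0 ≤ Hc S g p fuel j (y : ℤ))

lemma chk_spec {S g : ℤ} {p : ℤ → ℤ} (hS : 1 ≤ S) (hg : 2 * S < g) (hp0 : ∀ y < 0, p y = 0)
    {B : ℕ} {j : ℤ} (hj : 0 ≤ j) (h : chk S g p B j B = true) {n : ℕ} {y : ℤ} (hy : y < B)
    (hn : y < n) : 0 ≤ Hf S g p n j y := by
  rcases lt_or_ge y 0 with h0 | h0
  · rw [Hf_neg hS hg hp0 n j y hj h0]
  · rw [Hf_fuel hS hg hp0 n B j y hj hn hy, ← Hc_eq hS hg hp0 B j y hj]
    have h1 := List.all_eq_true.1 h y.toNat (List.mem_range.2 (by omega))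
    have h2 := of_decide_eq_true h1
    rwa [Int.toNat_of_nonneg h0] at h2

end Pool.Agent.Q41.TT
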