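import Mathlib
import Pool.Agent.Q41.TT.Ser

/-!
# Partitions into the parts 2, 3, 7 (and 8)
-/

namespace Pool.Agent.Q41.TT.C

open PowerSeries

/-- periodic correction modulo 2 -/
def u2 (y : ℤ) : ℤ := if y % 2 = 0 then 0 else -21

/-- periodic correction modulo 3 -/
def u3 (y : ℤ) : ℤ := if y % 3 = 0 then 0 else -28

/-- periodic correction modulo 7 -/
def u7 (y : ℤ) : ℤ := [0, -48, 0, -24, -36, -36, -24].getD (y % 7).toNat 0

/-- number of partitions of `y` into parts `2, 3, 7` -/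
def p (y : ℤ) : ℤ := if y < 0 then 0 else (y ^ 2 + 12 * y + 84 + (u2 y + u3 y + u7 y)) / 84

/-- parts `2, 3` -/
def p2 (y : ℤ) : ℤ := if y < 0 then 0 else y / 6 + (if y % 6 = 1 then 0 else 1)

/-- parts `2` -/
def p1 (y : ℤ) : ℤ := if y < 0 then 0 else if y % 2 = 0 then 1 else 0

lemma p_neg : ∀ y < 0, p y = 0 := fun y hy => by simp [p, hy]
lemma p2_neg : ∀ y < 0, p2 y = 0 := fun y hy => by simp [p2, hy]
lemma p1_neg : ∀ y < 0, p1 y = 0 := fun y hy => by simp [p1, hy]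

lemma dvd (y : ℤ) : (y ^ 2 + 12 * y + 84 + (u2 y + u3 y + u7 y)) % 84 = 0 := by
  have h1 : u2 y = u2 (y % 84) := by unfold u2; rw [show y % 84 % 2 = y % 2 by omega]
  have h2 : u3 y = u3 (y % 84) := by unfold u3; rw [show y % 84 % 3 = y % 3 by omega]
  have h2' : u7 y = u7 (y % 84) := by unfold u7; rw [show y % 84 % 7 = y % 7 by omega]
  have h3 : (y ^ 2 + 12 * y + 84 + (u2 y + u3 y + u7 y)) % 84 =
      ((y % 84) ^ 2 + 12 * (y % 84) + 84 + (u2 (y % 84) + u3 (y % 84) + u7 (y % 84))) % 84 := by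
    rw [← h1, ← h2, ← h2']
    have : y ≡ y % 84 [ZMOD 84] := (Int.mod_modEq y 84).symm
    exact (((this.pow 2).add (this.mul_left 12)).add_right 84).add_right _
  rw [h3]
  have h4 : 0 ≤ y % 84 := by omega
  have h5 : y % 84 < 84 := by omega
  generalize y % 84 = r at *
  interval_cases r <;> decide

lemma p_eq (y : ℤ) (hy : 0 ≤ y) : 84 * p y = y ^ 2 + 12 * y + 84 + (u2 y + u3 y + u7 y) := by
  have h := dvd y
  rw [p, if_neg (by omega)]
  generalize y ^ 2 + 12 * y + 84 + (u2 y + u3 y + u7 y) = w at *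
  omega

lemma p_step (y : ℤ) : p y - p (y - 7) = p2 y := by
  rcases lt_or_ge y 0 with h | h
  · rw [p_neg y h, p_neg _ (by omega), p2_neg y h]; rfl
  rcases lt_or_ge y 7 with h5 | h5
  · interval_cases y <;> decide
  · have e1 := p_eq y h
    have e2 := p_eq (y - 7) (by omega)
    have e3 : p2 y = y / 6 + (if y % 6 = 1 then 0 else 1) := by rw [p2, if_neg (by omega)]
    have e4 : u7 (y - 7) = u7 y := by unfold u7; rw [show (y - 7) % 7 = y % 7 by omega]
    have e5 : 84 * (p y - p (y - 7)) = 14 * y + 35 + (u2 y - u2 (y - 7)) +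
        (u3 y - u3 (y - 7)) := by
      rw [mul_sub, e1, e2, e4]; ring
    have e6 : (u2 y - u2 (y - 7)) + (u3 y - u3 (y - 7)) =
        84 * (y / 6 + (if y % 6 = 1 then 0 else 1)) - 35 - 14 * y := by
      unfold u2 u3; split_ifs <;> omega
    rw [e3]
    generalize (if y % 6 = 1 then (0 : ℤ) else 1) = w at *
    omega

lemma p2_step (y : ℤ) : p2 y - p2 (y - 3) = p1 y := by
  unfold p2 p1; split_ifs <;> omega

lemma p1_step (y : ℤ) : p1 y - p1 (y - 2) = if y = 0 then 1 else 0 := by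
  unfold p1; split_ifs <;> omega

lemma sr_one {q : ℤ → ℤ} (h : ∀ n : ℕ, q n = if (n : ℤ) = 0 then 1 else 0) : sr q = 1 := by
  ext n
  rw [sr, coeff_mk, h n, coeff_one]
  simp

lemma sr_p : sr p * (1 - X ^ 7) * (1 - X ^ 3) * (1 - X ^ 2) = 1 := by
  rw [sr_mul (c := 7) (q := p2) p_neg (fun n => by exact_mod_cast p_step n),
    sr_mul (c := 3) (q := p1) p2_neg (fun n => by exact_mod_cast p2_step n),
    sr_mul (c := 2) (q := fun y => if y = 0 then 1 else 0) p1_neg
      (fun n => by exact_mod_cast p1_step n)]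
  exact sr_one fun n => rfl

/-- the series of `1 / (1 - q ^ 8)` -/
noncomputable def E8 : ℤ⟦X⟧ := PowerSeries.mk fun n => if n % 8 = 0 then 1 else 0

lemma E8_mul : E8 * (1 - X ^ 8) = 1 := by
  ext n
  rw [mul_sub, mul_one, map_sub, coeff_mul_X_pow', coeff_one]
  simp only [E8, coeff_mk]
  split_ifs <;> first | rfl | omega

/-- a generating function with the parts `2, 3, 7, 8` is divisible by the series of `p` and by
the series of `1 / (1 - q ^ 8)` -/
lemma cnt_div (P : ℕ → Prop) [DecidablePred P] (h2 : P 2) (h3 : P 3) (h7 : P 7) (h8 : P 8) :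
    ∃ R : ℤ⟦X⟧, Nn R ∧ cnt P = R * (E8 * sr p) := by
  have e0 := cnt_mul P (a := 8) (by norm_num) h8
  have e1 := cnt_mul (fun m => P m ∧ m ≠ 8) (a := 7) (by norm_num) ⟨h7, by norm_num⟩
  have e2 := cnt_mul (fun m => (P m ∧ m ≠ 8) ∧ m ≠ 7) (a := 3) (by norm_num)
    ⟨⟨h3, by norm_num⟩, by norm_num⟩
  have e3 := cnt_mul (fun m => ((P m ∧ m ≠ 8) ∧ m ≠ 7) ∧ m ≠ 3) (a := 2) (by norm_num)
    ⟨⟨⟨h2, by norm_num⟩, by norm_num⟩, by norm_num⟩
  refine ⟨cnt (fun m => (((P m ∧ m ≠ 8) ∧ m ≠ 7) ∧ m ≠ 3) ∧ m ≠ 2), Nn_cnt _, ?_⟩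
  rw [← e3, ← e2, ← e1, ← e0]
  calc cnt P = cnt P * (E8 * (1 - X ^ 8)) * (sr p * (1 - X ^ 7) * (1 - X ^ 3) * (1 - X ^ 2)) := by
        rw [sr_p, E8_mul, mul_one, mul_one]
    _ = _ := by ring

lemma u2_bd (y : ℤ) : -21 ≤ u2 y ∧ u2 y ≤ 0 := by unfold u2; split_ifs <;> omega
lemma u3_bd (y : ℤ) : -28 ≤ u3 y ∧ u3 y ≤ 0 := by unfold u3; split_ifs <;> omega

lemma u7_bd (y : ℤ) : -48 ≤ u7 y ∧ u7 y ≤ 0 := by
  unfold u7
  have h1 : 0 ≤ y % 7 := by omega
  have h2 : y % 7 < 7 := by omega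
  generalize y % 7 = a at *
  interval_cases a <;> decide

lemma p_nonneg (y : ℤ) : 0 ≤ p y := by
  rcases lt_or_ge y 0 with h | h
  · rw [p_neg y h]
  · have h1 := p_eq y h
    have h3 := u2_bd y
    have h4 := u3_bd y
    have h5 := u7_bd y
    rcases lt_or_ge y 2 with h5 | h5
    · interval_cases y <;> decide
    · nlinarith

lemma p_mono_one (y : ℤ) (hy : y ≠ 1) : p (y - 1) ≤ p y := by
  rcases lt_or_ge y 1 with h | h
  · rw [p_neg (y - 1) (by omega)]; exact p_nonneg y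
  rcases lt_or_ge y 60 with h5 | h5
  · have : 2 ≤ y := by omega
    interval_cases y <;> decide
  · have e1 := p_eq y (by omega)
    have e2 := p_eq (y - 1) (by omega)
    have h3 := u2_bd y
    have h4 := u3_bd y
    have h5 := u7_bd y
    have h3' := u2_bd (y - 1)
    have h4' := u3_bd (y - 1)
    have h5' := u7_bd (y - 1)
    nlinarith

/-- monotonicity, with one exception -/
lemma p_mono {x y : ℤ} (h : x ≤ y) (hxy : x ≠ 0 ∨ y ≠ 1) : p x ≤ p y := by
  have key : ∀ (n : ℕ) (x : ℤ), x ≠ 0 → p x ≤ p (x + n) := by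
    intro n
    induction n with
    | zero => intro x _; simp
    | succ n ih =>
      intro x hx
      rcases eq_or_ne (x + n + 1) 1 with h1 | h1
      · have h2 : x < 0 := by omega
        rw [p_neg x h2]; exact p_nonneg _
      · refine (ih x hx).trans ?_
        have := p_mono_one (x + n + 1) h1
        rw [show x + (n : ℤ) + 1 - 1 = x + n by ring] at this
        push_cast
        rwa [show x + ((n : ℤ) + 1) = x + n + 1 by ring]
  obtain ⟨n, hn⟩ : ∃ n : ℕ, y = x + n := ⟨(y - x).toNat, by omega⟩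
  rcases eq_or_ne x 0 with h0 | h0
  · subst h0
    rcases Nat.lt_or_ge n 2 with h2 | h2
    · interval_cases n
      · subst hn; simp
      · simp at hn; omega
    · have h3 : p 0 ≤ p 2 := by decide
      refine h3.trans ?_
      obtain ⟨m, hm⟩ : ∃ m : ℕ, n = 2 + m := ⟨n - 2, by omega⟩
      have := key m 2 (by norm_num)
      rw [hn, hm]; push_cast; simpa using this
  · rw [hn]; exact key n x h0

end Pool.Agent.Q41.TT.C
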