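import Mathlib
import Pool.Agent.Q41.TT.InstF1
import Pool.Agent.Q41.TT.InstR1

/-!
# One more part, and the case `k = 1`, `S = 1`
-/

namespace Pool.Agent.Q41.TT

open PowerSeries

/-- sum of `a y + a (y - m) + ...` over non-negative arguments -/
def accum (a : ℤ → ℤ) (m : ℤ) : ℕ → ℤ → ℤ
  | 0, _ => 0
  | f + 1, y => if y < 0 then 0 else a y + accum a m f (y - m)

lemma accum_neg (a : ℤ → ℤ) (m : ℤ) (f : ℕ) {y : ℤ} (hy : y < 0) : accum a m f y = 0 := by
  cases f with
  | zero => rfl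
  | succ f => simp [accum, hy]

lemma accum_congr {a b : ℤ → ℤ} {m : ℤ} (hm : 1 ≤ m) {B : ℤ} (h : ∀ y < B, a y = b y) :
    ∀ (n n' : ℕ) (y : ℤ), y < n → y < n' → y < B → accum a m n y = accum b m n' y := by
  intro n
  induction n with
  | zero =>
    intro n' y h1 _ _
    have : y < 0 := by simpa using h1
    rw [accum_neg a m 0 this, accum_neg b m n' this]
  | succ n ih =>
    intro n' y h1 h2 h3
    rcases n' with _ | n'
    · have : y < 0 := by simpa using h2
      rw [accum_neg a m _ this, accum_neg b m _ this]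
    · simp only [accum]
      split_ifs with h0
      · rfl
      · rw [h y h3, ih n' (y - m) (by push_cast at h1; omega) (by push_cast at h2; omega)
          (by omega)]

theorem ext_pos {φ ψ : ℤ⟦X⟧} {m e B : ℕ} (hm : 1 ≤ m) (h : ψ * (1 - X ^ m) = φ) (a : ℤ → ℤ)
    (ha : ∀ n : ℕ, coeff n φ = a ((n : ℤ) - e)) (ha0 : ∀ y < 0, a y = 0)
    (hpos : ∀ y : ℤ, B ≤ y → 0 ≤ a y)
    (hfin : ∀ y : ℤ, 0 ≤ y → y < B → 0 ≤ accum a m B y) : Nn ψ := by
  have hrec : ∀ n : ℕ, coeff n ψ = a ((n : ℤ) - e) + if m ≤ n then coeff (n - m) ψ else 0 := by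
    intro n
    rw [← ha n, ← h, mul_sub, mul_one, map_sub, coeff_mul_X_pow']
    ring
  have hacc : ∀ n : ℕ, coeff n ψ = accum a m (n + 1) ((n : ℤ) - e) := by
    intro n
    induction n using Nat.strong_induction_on with
    | _ n ih =>
      rw [hrec n]
      simp only [accum]
      split_ifs with h1 h2 h2
      · rw [ih (n - m) (by omega), accum_neg _ _ _ (by omega), ha0 _ h2]; rfl
      · rw [ih (n - m) (by omega), Nat.cast_sub h1, show (n : ℤ) - m - e = n - e - m by ring]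
        congr 1
        exact accum_congr (B := n + 1) (by exact_mod_cast hm) (fun _ _ => rfl) _ _ _
          (by push_cast [Nat.cast_sub h1]; omega) (by omega) (by omega)
      · rw [ha0 _ h2]; rfl
      · rw [accum_neg _ _ _ (by omega)]
  intro n
  induction n using Nat.strong_induction_on with
  | _ n ih =>
    rcases lt_or_ge ((n : ℤ) - e) 0 with h0 | h0
    · rw [hacc n, accum_neg _ _ _ h0]
    rcases lt_or_ge ((n : ℤ) - e) B with h1 | h1
    · rw [hacc n, accum_congr (B := n + 1) (b := a) (by exact_mod_cast hm) (fun _ _ => rfl)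
        (n + 1) B ((n : ℤ) - e) (by push_cast; omega) h1 (by omega)]
      exact hfin _ h0 h1
    · rw [hrec n]
      have h2 := hpos _ h1
      split_ifs with h3
      · have := ih (n - m) (by omega)
        omega
      · omega

/-- finite check with an exceptional range at the beginning -/
def chkFrom (S g : ℤ) (p : ℤ → ℤ) (fuel : ℕ) (j : ℤ) (A B : ℕ) : Bool :=
  (List.range B).all fun y => decide (y < A ∨ 0 ≤ Hc S g p fuel j (y : ℤ))

lemma chkFrom_spec {S g : ℤ} {p : ℤ → ℤ} (hS : 1 ≤ S) (hg : 2 * S < g) (hp0 : ∀ y < 0, p y = 0)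
    {A B : ℕ} {j : ℤ} (hj : 0 ≤ j) (h : chkFrom S g p B j A B = true) {n : ℕ} {y : ℤ}
    (hA : A ≤ y) (hy : y < B) (hn : y < n) : 0 ≤ Hf S g p n j y := by
  have h0 : 0 ≤ y := by omega
  rw [Hf_fuel hS hg hp0 n B j y hj hn hy, ← Hc_eq hS hg hp0 B j y hj]
  have h1 := List.all_eq_true.1 h y.toNat (List.mem_range.2 (by omega))
  have h2 := of_decide_eq_true h1
  rcases h2 with h2 | h2
  · omega
  · rwa [Int.toNat_of_nonneg h0] at h2

end Pool.Agent.Q41.TT

namespace Pool.Agent.Q41.TT.B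

open PowerSeries Pool.Agent.Q41.TT

/-- the series of `1 / (1 - q ^ 6)` -/
noncomputable def E6 : ℤ⟦X⟧ := PowerSeries.mk fun n => if n % 6 = 0 then 1 else 0

lemma E6_mul : E6 * (1 - X ^ 6) = 1 := by
  ext n
  rw [mul_sub, mul_one, map_sub, coeff_mul_X_pow', coeff_one]
  simp only [E6, coeff_mk]
  split_ifs <;> first | rfl | omega

lemma Nn_E6 : Nn E6 := by intro n; simp only [E6, coeff_mk]; split_ifs <;> norm_num

/-- with the part `6` -/
lemma cnt_div6 (P : ℕ → Prop) [DecidablePred P] (h1 : P 1) (h4 : P 4) (h6 : P 6) (h9 : P 9) :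
    ∃ R : ℤ⟦X⟧, Nn R ∧ cnt P = R * (E6 * sr p) := by
  have e0 := cnt_mul P (a := 6) (by norm_num) h6
  obtain ⟨R, hR, hc⟩ := cnt_div (fun m => P m ∧ m ≠ 6) ⟨h1, by norm_num⟩ ⟨h4, by norm_num⟩
    ⟨h9, by norm_num⟩
  refine ⟨R, hR, ?_⟩
  calc cnt P = (cnt P * (1 - X ^ 6)) * E6 := by
        rw [mul_assoc, mul_comm (1 - X ^ 6) E6, E6_mul, mul_one]
    _ = R * (E6 * sr p) := by rw [e0, hc]; ring

/-- `k = 1`, `S = 1`, large arguments -/
theorem pos1 (n : ℕ) (y : ℤ) (hy : 98 ≤ y) (hn : y < n) : 0 ≤ Hf 1 7 p n 1 y := by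
  rcases lt_or_ge y 1232 with h5 | h5
  · exact chkFrom_spec (by norm_num) (by norm_num) p_neg (A := 98) (B := 1232) (by norm_num)
      (by decide +kernel) hy h5 hn
  · exact S1.key (k := 1) (by omega) hn (by push_cast; linarith)

/-- `k = 1`, `S = 1`, small arguments, with the part `6` -/
lemma fin1 (y : ℤ) (h0 : 0 ≤ y) (hy : y < 98) :
    0 ≤ accum (fun y => Hf 1 7 p (y.toNat + 1) 1 y) 6 98 y := by
  have h1 : accum (fun y => Hf 1 7 p (y.toNat + 1) 1 y) 6 98 y =
      accum (fun y => Hc 1 7 p 98 1 y) 6 98 y := by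
    refine accum_congr (B := 98) (by norm_num) (fun z hz => ?_) _ _ _ hy hy hy
    rw [Hc_eq (by norm_num) (by norm_num) p_neg _ _ _ (by norm_num)]
    exact Hf_fuel (by norm_num) (by norm_num) p_neg _ _ _ _ (by norm_num) (by omega) hz
  rw [h1]
  have h2 : (List.range 98).all (fun y => decide (0 ≤
      accum (fun y => Hc 1 7 p 98 1 y) 6 98 (y : ℤ))) = true := by decide +kernel
  have h3 := List.all_eq_true.1 h2 y.toNat (List.mem_range.2 (by omega))
  have h4 := of_decide_eq_true h3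
  rwa [Int.toNat_of_nonneg h0] at h4

/-- `k = 1`, `S = 6` -/
lemma fin6 (y : ℤ) (h0 : 0 ≤ y) (hy : y < 98) (n : ℕ) (hn : y < n) :
    0 ≤ p (y + 5) - p y + Hf 1 7 p n 1 y := by
  rw [Hf_fuel (by norm_num) (by norm_num) p_neg n 98 1 y (by norm_num) hn hy,
    ← Hc_eq (by norm_num) (by norm_num) p_neg 98 1 y (by norm_num)]
  have h2 : (List.range 98).all (fun y => decide (0 ≤
      p ((y : ℤ) + 5) - p y + Hc 1 7 p 98 1 (y : ℤ))) = true := by decide +kernel
  have h3 := List.all_eq_true.1 h2 y.toNat (List.mem_range.2 (by omega))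
  have h4 := of_decide_eq_true h3
  rwa [Int.toNat_of_nonneg h0] at h4

end Pool.Agent.Q41.TT.B

namespace Pool.Agent.Q41.TT.C

open PowerSeries Pool.Agent.Q41.TT

lemma Nn_E8 : Nn E8 := by intro n; simp only [E8, coeff_mk]; split_ifs <;> norm_num

/-- `k = 1`, `S = 1`, large arguments -/
theorem pos1 (n : ℕ) (y : ℤ) (hy : 32 ≤ y) (hn : y < n) : 0 ≤ Hf 1 7 p n 1 y := by
  rcases lt_or_ge y 1117 with h5 | h5
  · exact chkFrom_spec (by norm_num) (by norm_num) p_neg (A := 32) (B := 1117) (by norm_num)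
      (by decide +kernel) hy h5 hn
  · exact S1.key (k := 1) (by omega) hn (by push_cast; linarith)

/-- `k = 1`, `S = 1`, small arguments, with the part `8` -/
lemma fin1 (y : ℤ) (h0 : 0 ≤ y) (hy : y < 32) :
    0 ≤ accum (fun y => Hf 1 7 p (y.toNat + 1) 1 y) 8 32 y := by
  have h1 : accum (fun y => Hf 1 7 p (y.toNat + 1) 1 y) 8 32 y =
      accum (fun y => Hc 1 7 p 32 1 y) 8 32 y := by
    refine accum_congr (B := 32) (by norm_num) (fun z hz => ?_) _ _ _ hy hy hy
    rw [Hc_eq (by norm_num) (by norm_num) p_neg _ _ _ (by norm_num)]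
    exact Hf_fuel (by norm_num) (by norm_num) p_neg _ _ _ _ (by norm_num) (by omega) hz
  rw [h1]
  have h2 : (List.range 32).all (fun y => decide (0 ≤
      accum (fun y => Hc 1 7 p 32 1 y) 8 32 (y : ℤ))) = true := by decide +kernel
  have h3 := List.all_eq_true.1 h2 y.toNat (List.mem_range.2 (by omega))
  have h4 := of_decide_eq_true h3
  rwa [Int.toNat_of_nonneg h0] at h4

/-- `k = 1`, `S = 6` -/
lemma fin6 (y : ℤ) (h0 : 0 ≤ y) (hy : y < 32) (n : ℕ) (hn : y < n) :
    0 ≤ p (y + 5) - p y + Hf 1 7 p n 1 y := by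
  rw [Hf_fuel (by norm_num) (by norm_num) p_neg n 32 1 y (by norm_num) hn hy,
    ← Hc_eq (by norm_num) (by norm_num) p_neg 32 1 y (by norm_num)]
  have h2 : (List.range 32).all (fun y => decide (0 ≤
      p ((y : ℤ) + 5) - p y + Hc 1 7 p 32 1 (y : ℤ))) = true := by decide +kernel
  have h3 := List.all_eq_true.1 h2 y.toNat (List.mem_range.2 (by omega))
  have h4 := of_decide_eq_true h3
  rwa [Int.toNat_of_nonneg h0] at h4

end Pool.Agent.Q41.TT.C
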