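import Mathlib
import Pool.Agent.Q41.TT.P149
import Pool.Agent.Q41.TT.Tab

/-!
# The tail with `g = 7`, `S = 2` over the parts (1, 4, 9)
-/

namespace Pool.Agent.Q41.TT.B.S2

open Pool.Agent.Q41.TT Pool.Agent.Q41.TT.B

/-- rows modulo 4 -/
def R4 : List (List ℤ) := [[0, 0, 0, 0], [36, 0, -36, 0], [-36, 36, 36, -36], [0, 36, 0, -36]]

/-- rows modulo 9 -/
def R9 : List (List ℤ) := [[0, 0, 0, 0, 0, 0, 0, 0, 0], [-8, -48, -16, 16, 48, 8, -32, 0, 32],
    [8, 0, -8, -16, -24, -32, 32, 24, 16], [-24, 0, 24, 48, 0, -48, -24, 0, 24],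
    [-32, 24, 8, -8, -24, 32, 16, 0, -16], [-16, 0, 16, 32, -24, -8, 8, 24, -32],
    [24, 0, -24, -48, 0, 48, 24, 0, -24], [16, 24, 32, -32, -24, -16, -8, 0, 8],
    [32, 0, -32, 8, 48, 16, -16, -48, -8]]

lemma t4 (j y : ℤ) :
    tb R4 4 j y + tb R4 4 (j + 1) (y - vj 2 7 j) = u4 y - u4 (y - fj 2 j) := by
  unfold tb u4 vj fj
  rw [show (j + 1) % 4 = (j % 4 + 1) % 4 by omega,
    show (y - (7 * (j + 1) - 2)) % 4 = (y % 4 - (7 * (j % 4 + 1) - 2)) % 4 by omega,
    show (y - 2 * (2 * j + 1)) % 4 = (y % 4 - 2 * (2 * (j % 4) + 1)) % 4 by omega]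
  have h1 : 0 ≤ j % 4 := by omega
  have h2 : j % 4 < 4 := by omega
  have h3 : 0 ≤ y % 4 := by omega
  have h4 : y % 4 < 4 := by omega
  generalize j % 4 = a at *
  generalize y % 4 = b at *
  interval_cases a <;> interval_cases b <;> decide

lemma b4 (j y : ℤ) : |tb R4 4 j y| ≤ 36 := by
  unfold tb
  have h1 : 0 ≤ j % 4 := by omega
  have h2 : j % 4 < 4 := by omega
  have h3 : 0 ≤ y % 4 := by omega
  have h4 : y % 4 < 4 := by omega
  generalize j % 4 = a at *
  generalize y % 4 = b at *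
  interval_cases a <;> interval_cases b <;> decide

lemma t9 (j y : ℤ) :
    tb R9 9 j y + tb R9 9 (j + 1) (y - vj 2 7 j) = u9 y - u9 (y - fj 2 j) := by
  unfold tb u9 vj fj
  rw [show (j + 1) % 9 = (j % 9 + 1) % 9 by omega,
    show (y - (7 * (j + 1) - 2)) % 9 = (y % 9 - (7 * (j % 9 + 1) - 2)) % 9 by omega,
    show (y - 2 * (2 * j + 1)) % 9 = (y % 9 - 2 * (2 * (j % 9) + 1)) % 9 by omega]
  have h1 : 0 ≤ j % 9 := by omega
  have h2 : j % 9 < 9 := by omega
  have h3 : 0 ≤ y % 9 := by omega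
  have h4 : y % 9 < 9 := by omega
  generalize j % 9 = a at *
  generalize y % 9 = b at *
  interval_cases a <;> interval_cases b <;> decide

lemma b9 (j y : ℤ) : |tb R9 9 j y| ≤ 48 := by
  unfold tb
  have h1 : 0 ≤ j % 9 := by omega
  have h2 : j % 9 < 9 := by omega
  have h3 : 0 ≤ y % 9 := by omega
  have h4 : y % 9 < 9 := by omega
  generalize j % 9 = a at *
  generalize y % 9 = b at *
  interval_cases a <;> interval_cases b <;> decide

theorem bd (n : ℕ) (j y : ℤ) (hj : 0 ≤ j) (hy : 0 ≤ y) (hn : y < n) :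
    |7 * (72 * Hf 2 7 p n j y - Am 2 7 14 j y - (tb R4 4 j y + tb R9 9 j y))| ≤
      2 * (7 - 2) * Nc 2 7 j y + 1280 := by
  refine bound (S := 2) (g := 7) (D := 72) (s := 14) (κ := 1280) (p := p)
    (er := fun y => u4 y + u9 y) (Φ := fun j y => tb R4 4 j y + tb R9 9 j y)
    (by norm_num) (by norm_num) p_neg p_eq ?_ ?_ ?_ n j y hj hy hn
  · intro j y
    have t4' := t4 j y
    have t9' := t9 j y
    linarith
  · intro j z hj hz1 hz2
    have q4 := abs_le.1 (b4 (j + 1) (-z))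
    have q9 := abs_le.1 (b9 (j + 1) (-z))
    simp only [Am, Nc]
    obtain ⟨m, hm⟩ : ∃ m, m = j + 1 := ⟨_, rfl⟩
    rw [← hm] at q4 q9 hz2 ⊢
    have hm1 : 1 ≤ m := by omega
    obtain ⟨F, hF⟩ : ∃ F, F = tb R4 4 m (-z) + tb R9 9 m (-z) := ⟨_, rfl⟩
    rw [← hF]
    have hF1 : -84 ≤ F := by omega
    have hF2 : F ≤ 84 := by omega
    have e1 := mul_nonneg (sub_nonneg.2 hz1) (sub_nonneg.2 hm1)
    have e2 : 0 ≤ m * (3 * m - z) := mul_nonneg (by omega) (by omega)
    rw [abs_le]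
    constructor
    · nlinarith [sq_nonneg (28 * m - 104)]
    · nlinarith [sq_nonneg (28 * m - 104)]
  · intro j y hj hy hf
    have q4 := abs_le.1 (b4 j y)
    have q9 := abs_le.1 (b9 j y)
    have v4 := u4_bd y
    have v9 := u9_bd y
    simp only [Am, Nc, fj] at hf ⊢
    obtain ⟨F, hF⟩ : ∃ F, F = tb R4 4 j y + tb R9 9 j y := ⟨_, rfl⟩
    obtain ⟨E, hE⟩ : ∃ E, E = u4 y + u9 y := ⟨_, rfl⟩
    rw [← hF, ← hE]
    have hF1 : -84 ≤ F := by omega
    have hF2 : F ≤ 84 := by omega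
    have hE1 : -75 ≤ E := by omega
    have hE2 : E ≤ 9 := by omega
    have e1 : 0 ≤ y * (2 * (2 * j + 1) - 1 - y) := mul_nonneg hy (by omega)
    rw [abs_le]
    constructor
    · nlinarith [sq_nonneg (14 * (y - 2 * j) + 118)]
    · nlinarith [sq_nonneg j, sq_nonneg (j - 1), mul_nonneg hj hj]

theorem key {n k : ℕ} {y : ℤ} (hy : 0 ≤ y) (hn : y < n)
    (h : 0 ≤ (28 * (k : ℤ) - 20) * y - 28 * k ^ 2 + 236 * k - 1868) :
    0 ≤ Hf 2 7 p n k y := by
  have hb := bd n k y (by positivity) hy hn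
  have q4 := abs_le.1 (b4 k y)
  have q9 := abs_le.1 (b9 k y)
  have h3 := (abs_le.1 hb).1
  simp only [Am, Nc] at h3
  obtain ⟨F, hF⟩ : ∃ F, F = tb R4 4 k y + tb R9 9 k y := ⟨_, rfl⟩
  rw [← hF] at h3
  have hF1 : -84 ≤ F := by omega
  nlinarith

theorem pos (n k : ℕ) (y : ℤ) (hk : 1 ≤ k) (hy : 0 ≤ y) (hn : y < n) :
    0 ≤ Hf 2 7 p n k y := by
  rcases Nat.lt_or_ge k 4 with h4 | h4
  · interval_cases k
    · rcases lt_or_ge y 208 with h5 | h5
      · exact chk_spec (by norm_num) (by norm_num) p_neg (B := 208) (by norm_num)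
          (by decide +kernel) h5 hn
      · exact key hy hn (by push_cast; linarith)
    · rcases lt_or_ge y 42 with h5 | h5
      · exact chk_spec (by norm_num) (by norm_num) p_neg (B := 42) (by norm_num)
          (by decide +kernel) h5 hn
      · exact key hy hn (by push_cast; linarith)
    · rcases lt_or_ge y 23 with h5 | h5
      · exact chk_spec (by norm_num) (by norm_num) p_neg (B := 23) (by norm_num)
          (by decide +kernel) h5 hn
      · exact key hy hn (by push_cast; linarith)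
  · have hk4 : (4 : ℤ) ≤ k := by exact_mod_cast h4
    rcases lt_or_ge y (fj 2 k) with h5 | h5
    · obtain ⟨n, rfl⟩ : ∃ m, n = m + 1 := ⟨n - 1, by omega⟩
      rw [Hf_small (by norm_num) (by norm_num) p_neg n k y (by positivity) h5]
      exact p_nonneg y
    · unfold fj at h5
      refine key hy hn ?_
      have e1 : 0 ≤ (y - 2 * (2 * (k : ℤ) + 1)) * ((k : ℤ) - 4) :=
        mul_nonneg (by linarith) (by linarith)
      nlinarith [sq_nonneg ((k : ℤ) - 4)]

end Pool.Agent.Q41.TT.B.S2
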