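import Mathlib
import Pool.Agent.Q41.TT.P149
import Pool.Agent.Q41.TT.Tab

/-!
# The tail with `g = 7`, `S = 3` over the parts (1, 4, 9)
-/

namespace Pool.Agent.Q41.TT.B.S3

open Pool.Agent.Q41.TT Pool.Agent.Q41.TT.B

/-- rows modulo 4 -/
def R4 : List (List ℤ) := [[0, 0, 0, 0], [-9, 9, 27, -27], [0, 36, 0, -36], [27, 9, -9, -27]]

/-- rows modulo 9 -/
def R9 : List (List ℤ) := [[0, 0, 0, 0, 0, 0, 0, 0, 0], [24, 0, -24, -48, 0, 48, 24, 0, -24],
    [24, 48, 0, -48, -24, 0, 24, -24, 0], [0, -72, 0, 72, 72, 0, -72, 0, 0],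
    [-48, 0, 48, 96, 0, -96, -48, 0, 48], [96, 48, 0, -48, 48, 0, -48, -96, 0],
    [72, 0, 0, 0, 72, 0, -72, -72, 0], [24, 0, -24, -48, 0, 48, 24, 0, -24],
    [24, -24, 0, 24, 48, 0, -48, -24, 0]]

lemma t4 (j y : ℤ) :
    tb R4 4 j y + tb R4 4 (j + 1) (y - vj 3 7 j) = u4 y - u4 (y - fj 3 j) := by
  unfold tb u4 vj fj
  rw [show (j + 1) % 4 = (j % 4 + 1) % 4 by omega,
    show (y - (7 * (j + 1) - 3)) % 4 = (y % 4 - (7 * (j % 4 + 1) - 3)) % 4 by omega,
    show (y - 3 * (2 * j + 1)) % 4 = (y % 4 - 3 * (2 * (j % 4) + 1)) % 4 by omega]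
  have h1 : 0 ≤ j % 4 := by omega
  have h2 : j % 4 < 4 := by omega
  have h3 : 0 ≤ y % 4 := by omega
  have h4 : y % 4 < 4 := by omega
  generalize j % 4 = a at *
  generalize y % 4 = b at *
  interval_cases a <;> interval_cases b <;> decide

lemma b4 (j y : ℤ) : |tb R4 4 j y| ≤ 36 := by
  unfold tb
  have h1 : 0 ≤ j % 4 := by omega
  have h2 : j % 4 < 4 := by omega
  have h3 : 0 ≤ y % 4 := by omega
  have h4 : y % 4 < 4 := by omega
  generalize j % 4 = a at *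
  generalize y % 4 = b at *
  interval_cases a <;> interval_cases b <;> decide

lemma t9 (j y : ℤ) :
    tb R9 9 j y + tb R9 9 (j + 1) (y - vj 3 7 j) = u9 y - u9 (y - fj 3 j) := by
  unfold tb u9 vj fj
  rw [show (j + 1) % 9 = (j % 9 + 1) % 9 by omega,
    show (y - (7 * (j + 1) - 3)) % 9 = (y % 9 - (7 * (j % 9 + 1) - 3)) % 9 by omega,
    show (y - 3 * (2 * j + 1)) % 9 = (y % 9 - 3 * (2 * (j % 9) + 1)) % 9 by omega]
  have h1 : 0 ≤ j % 9 := by omega
  have h2 : j % 9 < 9 := by omega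
  have h3 : 0 ≤ y % 9 := by omega
  have h4 : y % 9 < 9 := by omega
  generalize j % 9 = a at *
  generalize y % 9 = b at *
  interval_cases a <;> interval_cases b <;> decide

lemma b9 (j y : ℤ) : |tb R9 9 j y| ≤ 96 := by
  unfold tb
  have h1 : 0 ≤ j % 9 := by omega
  have h2 : j % 9 < 9 := by omega
  have h3 : 0 ≤ y % 9 := by omega
  have h4 : y % 9 < 9 := by omega
  generalize j % 9 = a at *
  generalize y % 9 = b at *
  interval_cases a <;> interval_cases b <;> decide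

theorem bd (n : ℕ) (j y : ℤ) (hj : 0 ≤ j) (hy : 0 ≤ y) (hn : y < n) :
    |7 * (72 * Hf 3 7 p n j y - Am 3 7 14 j y - (tb R4 4 j y + tb R9 9 j y))| ≤
      3 * (7 - 3) * Nc 3 7 j y + 1740 := by
  refine bound (S := 3) (g := 7) (D := 72) (s := 14) (κ := 1740) (p := p)
    (er := fun y => u4 y + u9 y) (Φ := fun j y => tb R4 4 j y + tb R9 9 j y)
    (by norm_num) (by norm_num) p_neg p_eq ?_ ?_ ?_ n j y hj hy hn
  · intro j y
    have t4' := t4 j y
    have t9' := t9 j y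
    linarith
  · intro j z hj hz1 hz2
    have q4 := abs_le.1 (b4 (j + 1) (-z))
    have q9 := abs_le.1 (b9 (j + 1) (-z))
    simp only [Am, Nc]
    obtain ⟨m, hm⟩ : ∃ m, m = j + 1 := ⟨_, rfl⟩
    rw [← hm] at q4 q9 hz2 ⊢
    have hm1 : 1 ≤ m := by omega
    obtain ⟨F, hF⟩ : ∃ F, F = tb R4 4 m (-z) + tb R9 9 m (-z) := ⟨_, rfl⟩
    rw [← hF]
    have hF1 : -132 ≤ F := by omega
    have hF2 : F ≤ 132 := by omega
    have e1 := mul_nonneg (sub_nonneg.2 hz1) (sub_nonneg.2 hm1)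
    have e2 : 0 ≤ m * (1 * m - z) := mul_nonneg (by omega) (by omega)
    rw [abs_le]
    constructor
    · nlinarith [sq_nonneg (42 * m - 108)]
    · nlinarith [sq_nonneg (42 * m - 108)]
  · intro j y hj hy hf
    have q4 := abs_le.1 (b4 j y)
    have q9 := abs_le.1 (b9 j y)
    have v4 := u4_bd y
    have v9 := u9_bd y
    simp only [Am, Nc, fj] at hf ⊢
    obtain ⟨F, hF⟩ : ∃ F, F = tb R4 4 j y + tb R9 9 j y := ⟨_, rfl⟩
    obtain ⟨E, hE⟩ : ∃ E, E = u4 y + u9 y := ⟨_, rfl⟩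
    rw [← hF, ← hE]
    have hF1 : -132 ≤ F := by omega
    have hF2 : F ≤ 132 := by omega
    have hE1 : -75 ≤ E := by omega
    have hE2 : E ≤ 9 := by omega
    have e1 : 0 ≤ y * (3 * (2 * j + 1) - 1 - y) := mul_nonneg hy (by omega)
    rw [abs_le]
    constructor
    · nlinarith [sq_nonneg (14 * (y - 3 * j) + 122)]
    · nlinarith [sq_nonneg j, sq_nonneg (j - 1), mul_nonneg hj hj]

theorem key {n k : ℕ} {y : ℤ} (hy : 0 ≤ y) (hn : y < n)
    (h : 0 ≤ (42 * (k : ℤ) - 24) * y - 63 * k ^ 2 + 366 * k - 2664) :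
    0 ≤ Hf 3 7 p n k y := by
  have hb := bd n k y (by positivity) hy hn
  have q4 := abs_le.1 (b4 k y)
  have q9 := abs_le.1 (b9 k y)
  have h3 := (abs_le.1 hb).1
  simp only [Am, Nc] at h3
  obtain ⟨F, hF⟩ : ∃ F, F = tb R4 4 k y + tb R9 9 k y := ⟨_, rfl⟩
  rw [← hF] at h3
  have hF1 : -132 ≤ F := by omega
  nlinarith

theorem pos (n k : ℕ) (y : ℤ) (hk : 1 ≤ k) (hy : 0 ≤ y) (hn : y < n) :
    0 ≤ Hf 3 7 p n k y := by
  rcases Nat.lt_or_ge k 3 with h4 | h4
  · interval_cases k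
    · rcases lt_or_ge y 132 with h5 | h5
      · exact chk_spec (by norm_num) (by norm_num) p_neg (B := 132) (by norm_num)
          (by decide +kernel) h5 hn
      · exact key hy hn (by push_cast; linarith)
    · rcases lt_or_ge y 37 with h5 | h5
      · exact chk_spec (by norm_num) (by norm_num) p_neg (B := 37) (by norm_num)
          (by decide +kernel) h5 hn
      · exact key hy hn (by push_cast; linarith)
  · have hk4 : (3 : ℤ) ≤ k := by exact_mod_cast h4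
    rcases lt_or_ge y (fj 3 k) with h5 | h5
    · obtain ⟨n, rfl⟩ : ∃ m, n = m + 1 := ⟨n - 1, by omega⟩
      rw [Hf_small (by norm_num) (by norm_num) p_neg n k y (by positivity) h5]
      exact p_nonneg y
    · unfold fj at h5
      refine key hy hn ?_
      have e1 : 0 ≤ (y - 3 * (2 * (k : ℤ) + 1)) * ((k : ℤ) - 3) :=
        mul_nonneg (by linarith) (by linarith)
      nlinarith [sq_nonneg ((k : ℤ) - 3)]

end Pool.Agent.Q41.TT.B.S3
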