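import Mathlib
import Pool.Agent.Q41.TT.P237
import Pool.Agent.Q41.TT.Tab

/-!
# The tail with `g = 7`, `S = 2` over the parts (2, 3, 7)
-/

namespace Pool.Agent.Q41.TT.C.S2

open Pool.Agent.Q41.TT Pool.Agent.Q41.TT.C

/-- rows modulo 2 -/
def R2 : List (List ℤ) := [[0, 0], [0, 0]]

/-- rows modulo 3 -/
def R3 : List (List ℤ) := [[0, 0, 0], [-28, 28, 0], [28, -28, 0]]

/-- rows modulo 7 -/
def R7 : List (List ℤ) := [[0, 0, 0, 0, 0, 0, 0], [-12, 12, 36, -24, 0, 24, -36], [-36, 12, 60, -60, -12, 36, 0],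
    [-72, 0, 72, -24, -36, 36, 24], [-36, -24, 72, 0, -72, 24, 36],
    [-12, -60, 60, 12, -36, 0, 36], [0, -24, 36, 12, -12, -36, 24]]

lemma t2 (j y : ℤ) :
    tb R2 2 j y + tb R2 2 (j + 1) (y - vj 2 7 j) = u2 y - u2 (y - fj 2 j) := by
  unfold tb u2 vj fj
  rw [show (j + 1) % 2 = (j % 2 + 1) % 2 by omega,
    show (y - (7 * (j + 1) - 2)) % 2 = (y % 2 - (7 * (j % 2 + 1) - 2)) % 2 by omega,
    show (y - 2 * (2 * j + 1)) % 2 = (y % 2 - 2 * (2 * (j % 2) + 1)) % 2 by omega]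
  have h1 : 0 ≤ j % 2 := by omega
  have h2 : j % 2 < 2 := by omega
  have h3 : 0 ≤ y % 2 := by omega
  have h4 : y % 2 < 2 := by omega
  generalize j % 2 = a at *
  generalize y % 2 = b at *
  interval_cases a <;> interval_cases b <;> decide

lemma b2 (j y : ℤ) : |tb R2 2 j y| ≤ 0 := by
  unfold tb
  have h1 : 0 ≤ j % 2 := by omega
  have h2 : j % 2 < 2 := by omega
  have h3 : 0 ≤ y % 2 := by omega
  have h4 : y % 2 < 2 := by omega
  generalize j % 2 = a at *
  generalize y % 2 = b at *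
  interval_cases a <;> interval_cases b <;> decide

lemma t3 (j y : ℤ) :
    tb R3 3 j y + tb R3 3 (j + 1) (y - vj 2 7 j) = u3 y - u3 (y - fj 2 j) := by
  unfold tb u3 vj fj
  rw [show (j + 1) % 3 = (j % 3 + 1) % 3 by omega,
    show (y - (7 * (j + 1) - 2)) % 3 = (y % 3 - (7 * (j % 3 + 1) - 2)) % 3 by omega,
    show (y - 2 * (2 * j + 1)) % 3 = (y % 3 - 2 * (2 * (j % 3) + 1)) % 3 by omega]
  have h1 : 0 ≤ j % 3 := by omega
  have h2 : j % 3 < 3 := by omega
  have h3 : 0 ≤ y % 3 := by omega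
  have h4 : y % 3 < 3 := by omega
  generalize j % 3 = a at *
  generalize y % 3 = b at *
  interval_cases a <;> interval_cases b <;> decide

lemma b3 (j y : ℤ) : |tb R3 3 j y| ≤ 28 := by
  unfold tb
  have h1 : 0 ≤ j % 3 := by omega
  have h2 : j % 3 < 3 := by omega
  have h3 : 0 ≤ y % 3 := by omega
  have h4 : y % 3 < 3 := by omega
  generalize j % 3 = a at *
  generalize y % 3 = b at *
  interval_cases a <;> interval_cases b <;> decide

lemma t7 (j y : ℤ) :
    tb R7 7 j y + tb R7 7 (j + 1) (y - vj 2 7 j) = u7 y - u7 (y - fj 2 j) := by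
  unfold tb u7 vj fj
  rw [show (j + 1) % 7 = (j % 7 + 1) % 7 by omega,
    show (y - (7 * (j + 1) - 2)) % 7 = (y % 7 - (7 * (j % 7 + 1) - 2)) % 7 by omega,
    show (y - 2 * (2 * j + 1)) % 7 = (y % 7 - 2 * (2 * (j % 7) + 1)) % 7 by omega]
  have h1 : 0 ≤ j % 7 := by omega
  have h2 : j % 7 < 7 := by omega
  have h3 : 0 ≤ y % 7 := by omega
  have h4 : y % 7 < 7 := by omega
  generalize j % 7 = a at *
  generalize y % 7 = b at *
  interval_cases a <;> interval_cases b <;> decide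

lemma b7 (j y : ℤ) : |tb R7 7 j y| ≤ 72 := by
  unfold tb
  have h1 : 0 ≤ j % 7 := by omega
  have h2 : j % 7 < 7 := by omega
  have h3 : 0 ≤ y % 7 := by omega
  have h4 : y % 7 < 7 := by omega
  generalize j % 7 = a at *
  generalize y % 7 = b at *
  interval_cases a <;> interval_cases b <;> decide

theorem bd (n : ℕ) (j y : ℤ) (hj : 0 ≤ j) (hy : 0 ≤ y) (hn : y < n) :
    |7 * (84 * Hf 2 7 p n j y - Am 2 7 12 j y - (tb R2 2 j y + tb R3 3 j y + tb R7 7 j y))| ≤
      2 * (7 - 2) * Nc 2 7 j y + 1399 := by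
  refine bound (S := 2) (g := 7) (D := 84) (s := 12) (κ := 1399) (p := p)
    (er := fun y => u2 y + u3 y + u7 y) (Φ := fun j y => tb R2 2 j y + tb R3 3 j y + tb R7 7 j y)
    (by norm_num) (by norm_num) p_neg p_eq ?_ ?_ ?_ n j y hj hy hn
  · intro j y
    have t2' := t2 j y
    have t3' := t3 j y
    have t7' := t7 j y
    linarith
  · intro j z hj hz1 hz2
    have q2 := abs_le.1 (b2 (j + 1) (-z))
    have q3 := abs_le.1 (b3 (j + 1) (-z))
    have q7 := abs_le.1 (b7 (j + 1) (-z))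
    simp only [Am, Nc]
    obtain ⟨m, hm⟩ : ∃ m, m = j + 1 := ⟨_, rfl⟩
    rw [← hm] at q2 q3 q7 hz2 ⊢
    have hm1 : 1 ≤ m := by omega
    obtain ⟨F, hF⟩ : ∃ F, F = tb R2 2 m (-z) + tb R3 3 m (-z) + tb R7 7 m (-z) := ⟨_, rfl⟩
    rw [← hF]
    have hF1 : -100 ≤ F := by omega
    have hF2 : F ≤ 100 := by omega
    have e1 := mul_nonneg (sub_nonneg.2 hz1) (sub_nonneg.2 hm1)
    have e2 : 0 ≤ m * (3 * m - z) := mul_nonneg (by omega) (by omega)
    rw [abs_le]
    constructor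
    · nlinarith [sq_nonneg (28 * m - 90)]
    · nlinarith [sq_nonneg (28 * m - 90)]
  · intro j y hj hy hf
    have q2 := abs_le.1 (b2 j y)
    have q3 := abs_le.1 (b3 j y)
    have q7 := abs_le.1 (b7 j y)
    have v2 := u2_bd y
    have v3 := u3_bd y
    have v7 := u7_bd y
    simp only [Am, Nc, fj] at hf ⊢
    obtain ⟨F, hF⟩ : ∃ F, F = tb R2 2 j y + tb R3 3 j y + tb R7 7 j y := ⟨_, rfl⟩
    obtain ⟨E, hE⟩ : ∃ E, E = u2 y + u3 y + u7 y := ⟨_, rfl⟩
    rw [← hF, ← hE]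
    have hF1 : -100 ≤ F := by omega
    have hF2 : F ≤ 100 := by omega
    have hE1 : -97 ≤ E := by omega
    have hE2 : E ≤ 0 := by omega
    have e1 : 0 ≤ y * (2 * (2 * j + 1) - 1 - y) := mul_nonneg hy (by omega)
    rw [abs_le]
    constructor
    · nlinarith [sq_nonneg (14 * (y - 2 * j) + 104)]
    · nlinarith [sq_nonneg j, sq_nonneg (j - 1), mul_nonneg hj hj]

theorem key {n k : ℕ} {y : ℤ} (hy : 0 ≤ y) (hn : y < n)
    (h : 0 ≤ (28 * (k : ℤ) - 20) * y - 28 * k ^ 2 + 208 * k - 2099) :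
    0 ≤ Hf 2 7 p n k y := by
  have hb := bd n k y (by positivity) hy hn
  have q2 := abs_le.1 (b2 k y)
  have q3 := abs_le.1 (b3 k y)
  have q7 := abs_le.1 (b7 k y)
  have h3 := (abs_le.1 hb).1
  simp only [Am, Nc] at h3
  obtain ⟨F, hF⟩ : ∃ F, F = tb R2 2 k y + tb R3 3 k y + tb R7 7 k y := ⟨_, rfl⟩
  rw [← hF] at h3
  have hF1 : -100 ≤ F := by omega
  nlinarith

theorem pos (n k : ℕ) (y : ℤ) (hk : 1 ≤ k) (hy : 0 ≤ y) (hn : y < n) :
    0 ≤ Hf 2 7 p n k y := by
  rcases Nat.lt_or_ge k 5 with h4 | h4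
  · interval_cases k
    · rcases lt_or_ge y 240 with h5 | h5
      · exact chk_spec (by norm_num) (by norm_num) p_neg (B := 240) (by norm_num)
          (by decide +kernel) h5 hn
      · exact key hy hn (by push_cast; linarith)
    · rcases lt_or_ge y 50 with h5 | h5
      · exact chk_spec (by norm_num) (by norm_num) p_neg (B := 50) (by norm_num)
          (by decide +kernel) h5 hn
      · exact key hy hn (by push_cast; linarith)
    · rcases lt_or_ge y 27 with h5 | h5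
      · exact chk_spec (by norm_num) (by norm_num) p_neg (B := 27) (by norm_num)
          (by decide +kernel) h5 hn
      · exact key hy hn (by push_cast; linarith)
    · rcases lt_or_ge y 19 with h5 | h5
      · exact chk_spec (by norm_num) (by norm_num) p_neg (B := 19) (by norm_num)
          (by decide +kernel) h5 hn
      · exact key hy hn (by push_cast; linarith)
  · have hk4 : (5 : ℤ) ≤ k := by exact_mod_cast h4
    rcases lt_or_ge y (fj 2 k) with h5 | h5
    · obtain ⟨n, rfl⟩ : ∃ m, n = m + 1 := ⟨n - 1, by omega⟩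
      rw [Hf_small (by norm_num) (by norm_num) p_neg n k y (by positivity) h5]
      exact p_nonneg y
    · unfold fj at h5
      refine key hy hn ?_
      have e1 : 0 ≤ (y - 2 * (2 * (k : ℤ) + 1)) * ((k : ℤ) - 5) :=
        mul_nonneg (by linarith) (by linarith)
      nlinarith [sq_nonneg ((k : ℤ) - 5)]

end Pool.Agent.Q41.TT.C.S2
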