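import Mathlib
import Pool.Agent.Q41.TT.Ser

/-!
# The truncated theta series modulo 7

`T k S = ∑ (-1) ^ j q ^ (7 j (j + 1) / 2 - j S) (1 - q ^ ((2 j + 1) S))` over `j ≥ k`.
-/

namespace Pool.Agent.Q41.TT.Seven

open PowerSeries Pool.Agent.Q41.TT

/-- the exponent `7 j (j + 1) / 2 - j S` -/
def e (S j : ℕ) : ℕ := 7 * j * (j + 1) / 2 - j * S

/-- the series `T k S` -/
noncomputable def T (k S : ℕ) : ℤ⟦X⟧ :=
  PowerSeries.mk fun N => ∑ j ∈ Finset.range (N + 1), if k ≤ j then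
    (-1) ^ j * ((if e S j = N then 1 else 0) - (if e S j + (2 * j + 1) * S = N then 1 else 0))
  else 0

lemma e_two {S : ℕ} (hS : S ≤ 6) (j : ℕ) : (e S j : ℤ) * 2 = 7 * j * (j + 1) - 2 * j * S := by
  have h1 : 2 ∣ 7 * j * (j + 1) := by
    rw [mul_assoc]; exact Dvd.dvd.mul_left (Nat.even_mul_succ_self j).two_dvd 7
  have h2 : 7 * j * (j + 1) / 2 * 2 = 7 * j * (j + 1) := Nat.div_mul_cancel h1
  have h3 : j * S ≤ 7 * j * (j + 1) / 2 := by
    rcases Nat.eq_zero_or_pos j with h | h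
    · subst h; simp
    · have : 2 * (j * S) ≤ 7 * j * (j + 1) := by nlinarith
      omega
  unfold e
  rw [Nat.cast_sub h3]
  zify at h2
  push_cast
  linarith

lemma e_ge {S : ℕ} (hS : S ≤ 6) (j : ℕ) : j ≤ e S j := by
  have h := e_two hS j
  rcases Nat.eq_zero_or_pos j with h0 | h0
  · omega
  · have h1 : (1 : ℤ) ≤ j := by exact_mod_cast h0
    have h2 : (S : ℤ) ≤ 6 := by exact_mod_cast hS
    have : (j : ℤ) ≤ e S j := by nlinarith
    exact_mod_cast this

lemma e_succ {S : ℕ} (hS : S ≤ 6) (k : ℕ) : (e S (k + 1) : ℤ) = e S k + vj S 7 k := by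
  have h1 := e_two hS k
  have h2 := e_two hS (k + 1)
  unfold vj
  push_cast at h2
  linarith

/-- the tail with its sign -/
noncomputable def Ts (S k : ℕ) : ℤ⟦X⟧ := (-1) ^ k * T k S

lemma T_rec {S : ℕ} (hS : S ≤ 6) (k : ℕ) :
    T k S = (-1) ^ k * (X ^ (e S k) - X ^ (e S k + (2 * k + 1) * S)) + T (k + 1) S := by
  ext N
  rw [map_add, show ((-1 : ℤ⟦X⟧) ^ k) = C ((-1 : ℤ) ^ k) by simp, coeff_C_mul, map_sub,
    coeff_X_pow, coeff_X_pow]
  simp only [T, coeff_mk]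
  obtain ⟨x, hx⟩ : ∃ x : ℕ → ℤ, ∀ j, x j = (-1) ^ j * ((if e S j = N then 1 else 0) -
    (if e S j + (2 * j + 1) * S = N then 1 else 0)) := ⟨_, fun _ => rfl⟩
  simp only [← hx]
  have h1 : ∀ j, (if k ≤ j then x j else 0) = (if k = j then x j else 0) +
      (if k + 1 ≤ j then x j else 0) := by
    intro j
    by_cases h : k = j
    · subst h; simp
    · by_cases h' : k ≤ j
      · rw [if_pos h', if_neg h, if_pos (by omega)]; simp
      · rw [if_neg h', if_neg h, if_neg (by omega)]; simp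
  rw [Finset.sum_congr rfl fun j _ => h1 j, Finset.sum_add_distrib, Finset.sum_ite_eq]
  congr 1
  have h2 := e_ge hS k
  split_ifs with h3 h4 h5 h5
  all_goals try (rw [hx k])
  · rw [if_pos h4.symm, if_pos h5.symm]
  · rw [if_pos h4.symm, if_neg (Ne.symm h5)]
  · rw [if_neg (Ne.symm h4), if_pos h5.symm]
  · rw [if_neg (Ne.symm h4), if_neg (Ne.symm h5)]
  all_goals simp only [Finset.mem_range, not_lt] at h3
  all_goals omega

lemma Ts_rec {S : ℕ} (hS : S ≤ 6) (k : ℕ) :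
    Ts S k = X ^ (e S k) - X ^ (e S k + (2 * k + 1) * S) - Ts S (k + 1) := by
  unfold Ts
  rw [T_rec hS k, pow_succ (-1 : ℤ⟦X⟧) k]
  have h : ((-1 : ℤ⟦X⟧) ^ k) * (-1) ^ k = 1 := by rw [← mul_pow]; simp
  linear_combination (X ^ e S k - X ^ (e S k + (2 * k + 1) * S)) * h

lemma e_mono {S : ℕ} (hS : S ≤ 6) {i j : ℕ} (h : i ≤ j) : e S i ≤ e S j := by
  refine monotone_nat_of_le_succ (fun n => ?_) h
  have h1 := e_succ hS n
  have h2 : 0 ≤ vj S 7 n := by unfold vj; omega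
  omega

lemma Ts_zero {S : ℕ} (hS : S ≤ 6) (k N : ℕ) (h : N < e S k) : coeff N (Ts S k) = 0 := by
  unfold Ts
  rw [show ((-1 : ℤ⟦X⟧) ^ k) = C ((-1 : ℤ) ^ k) by simp, coeff_C_mul, T, coeff_mk]
  rw [Finset.sum_eq_zero, mul_zero]
  intro j _
  split_ifs with h1 h2 h3 h3
  all_goals first | (exfalso; have := e_mono hS h1; omega) | simp

/-- the coefficients after multiplication, `S ≤ 3` -/
theorem coeff_small {p : ℤ → ℤ} (hp0 : ∀ y < 0, p y = 0) {S : ℕ} (hS1 : 1 ≤ S) (hS3 : S ≤ 3)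
    (k n : ℕ) : coeff n (sr p * Ts S k) = Hf S 7 p (n + 1) k ((n : ℤ) - e S k) := by
  refine coeff_tail (S := S) (g := 7) (p := p) (T := Ts S) (e := e S)
    (f := fun k => (2 * k + 1) * S) (by exact_mod_cast hS1) (by omega) hp0
    (fun k => by unfold fj; push_cast; ring) (e_succ (by omega)) (Ts_rec (by omega))
    (Ts_zero (by omega)) (n + 1) k n (by push_cast; have := Int.natCast_nonneg (e S k); omega)

/-- symmetry `S ↔ 7 - S` -/
theorem Ts_symm {S S' : ℕ} (hS : 1 ≤ S) (hS' : 1 ≤ S') (h : S + S' = 7) (k : ℕ) :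
    Ts S k = Ts S' k + X ^ (e S k) - X ^ (e S' k) := by
  have h6 : S ≤ 6 := by omega
  have h6' : S' ≤ 6 := by omega
  have b1 : ∀ k, e S k + (2 * k + 1) * S = e S' (k + 1) := by
    intro k
    have h1 := e_two h6 k
    have h2 := e_two h6' (k + 1)
    have h3 : (S' : ℤ) = 7 - S := by omega
    rw [h3] at h2
    push_cast at h2
    have h4 : ((e S k + (2 * k + 1) * S : ℕ) : ℤ) = e S' (k + 1) := by push_cast; linarith
    exact_mod_cast h4
  have b2 : ∀ k, e S' k + (2 * k + 1) * S' = e S (k + 1) := by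
    intro k
    have h1 := e_two h6' k
    have h2 := e_two h6 (k + 1)
    have h3 : (S' : ℤ) = 7 - S := by omega
    rw [h3] at h1
    push_cast at h2
    have h4 : ((e S' k + (2 * k + 1) * S' : ℕ) : ℤ) = e S (k + 1) := by
      push_cast; rw [h3]; linarith
    exact_mod_cast h4
  obtain ⟨D, hD⟩ : ∃ D : ℕ → ℤ⟦X⟧, ∀ k, D k = Ts S k - Ts S' k - X ^ (e S k) + X ^ (e S' k) :=
    ⟨_, fun _ => rfl⟩
  have h1 : ∀ k, D k = -D (k + 1) := by
    intro k
    rw [hD, hD, Ts_rec h6 k, Ts_rec h6' k, b1, b2]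
    ring
  have h2 : ∀ (m k : ℕ), D k = (-1) ^ m * D (k + m) := by
    intro m
    induction m with
    | zero => intro k; simp
    | succ m ih =>
      intro k
      rw [ih k, h1 (k + m), pow_succ, add_assoc]
      ring
  have h3 : ∀ k N, N < k → coeff N (D k) = 0 := by
    intro k N hN
    have e1 := e_ge h6 k
    have e2 := e_ge h6' k
    rw [hD, map_add, map_sub, map_sub, Ts_zero h6 k N (by omega), Ts_zero h6' k N (by omega),
      coeff_X_pow, coeff_X_pow, if_neg (by omega), if_neg (by omega)]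
    ring
  have h4 : D k = 0 := by
    ext N
    rw [h2 (N + 1) k, show ((-1 : ℤ⟦X⟧) ^ (N + 1)) = C ((-1 : ℤ) ^ (N + 1)) by simp, coeff_C_mul,
      h3 _ _ (by omega)]
    simp
  rw [hD] at h4
  linear_combination h4

/-- the coefficients after multiplication, `S ≥ 4` -/
theorem coeff_large {p : ℤ → ℤ} (hp0 : ∀ y < 0, p y = 0) {S S' : ℕ} (hS' : 1 ≤ S')
    (hS3 : S' ≤ 3) (h : S + S' = 7) (k n : ℕ) :
    coeff n (sr p * Ts S k) = Hf S' 7 p (n + 1) k ((n : ℤ) - e S' k) +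
      (p ((n : ℤ) - e S k) - p ((n : ℤ) - e S' k)) := by
  rw [Ts_symm (by omega) hS' h k, mul_sub, mul_add, map_sub, map_add,
    coeff_small hp0 hS' hS3 k n, coeff_sr_X p hp0, coeff_sr_X p hp0]
  ring

lemma e_diff {S S' : ℕ} (hS : 1 ≤ S) (hS' : 1 ≤ S') (h : S + S' = 7) (k : ℕ) :
    (e S' k : ℤ) = e S k + k * (7 - 2 * S') := by
  have h1 := e_two (show S ≤ 6 by omega) k
  have h2 := e_two (show S' ≤ 6 by omega) k
  have h3 : (S : ℤ) = 7 - S' := by omega
  rw [h3] at h1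
  linarith

end Pool.Agent.Q41.TT.Seven
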