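import Mathlib
import Pool.Agent.Q41.TT.Seven
import Pool.Agent.Q41.TT.Ext
import Pool.Agent.Q41.TT.InstF2
import Pool.Agent.Q41.TT.InstF3
import Pool.Agent.Q41.TT.InstR2
import Pool.Agent.Q41.TT.InstR3

/-!
# The tails modulo 7 over the two Rogers-Ramanujan products
-/

namespace Pool.Agent.Q41.TT.Seven

open PowerSeries Pool.Agent.Q41.TT

lemma Nn_of_Hf {p : ℤ → ℤ} (hp0 : ∀ y < 0, p y = 0) {S : ℕ} (hS1 : 1 ≤ S) (hS3 : S ≤ 3) (k : ℕ)
    (h : ∀ (n : ℕ) (y : ℤ), 0 ≤ y → y < n → 0 ≤ Hf S 7 p n k y) : Nn (sr p * Ts S k) := by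
  intro n
  rw [coeff_small hp0 hS1 hS3]
  have h0 := Int.natCast_nonneg (e S k)
  rcases lt_or_ge ((n : ℤ) - e S k) 0 with h1 | h1
  · rw [Hf_neg (by exact_mod_cast hS1) (by omega) hp0 _ _ _ (by positivity) h1]
  · exact h _ _ h1 (by push_cast; omega)

/-- first product, `S ≤ 3` -/
theorem F_small {S : ℕ} (hS1 : 1 ≤ S) (hS3 : S ≤ 3) (k : ℕ) (hk : 1 ≤ k) :
    Nn (B.E6 * (sr B.p * Ts S k)) := by
  have key : (∀ (n : ℕ) (y : ℤ), 0 ≤ y → y < n → 0 ≤ Hf S 7 B.p n k y) →
      Nn (B.E6 * (sr B.p * Ts S k)) := fun h => B.Nn_E6.mul (Nn_of_Hf B.p_neg hS1 hS3 k h)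
  interval_cases S
  · rcases Nat.lt_or_ge k 2 with h2 | h2
    · have hk1 : k = 1 := by omega
      subst hk1
      refine ext_pos (m := 6) (e := e 1 1) (B := 98) (φ := sr B.p * Ts 1 1) (by norm_num) ?_
        (fun y => Hf 1 7 B.p (y.toNat + 1) 1 y) ?_ ?_ ?_ ?_
      · rw [mul_comm B.E6, mul_assoc, B.E6_mul, mul_one]
      · intro n
        rw [coeff_small B.p_neg (by norm_num) (by norm_num)]
        have h0 := Int.natCast_nonneg (e 1 1)
        have := Hf_fuel (S := 1) (g := 7) (by norm_num) (by norm_num) B.p_neg (n + 1)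
          (((n : ℤ) - e 1 1).toNat + 1) 1 ((n : ℤ) - e 1 1) (by norm_num) (by push_cast; omega)
          (by push_cast; omega)
        simpa using this
      · intro y hy
        exact Hf_neg (by norm_num) (by norm_num) B.p_neg _ _ _ (by norm_num) hy
      · intro y hy
        exact B.pos1 _ y hy (by push_cast; omega)
      · intro y h0 hy
        exact B.fin1 y h0 hy
    · exact key fun n y h0 h1 => by simpa using B.S1.pos n k y h2 h0 h1
  · exact key fun n y h0 h1 => by simpa using B.S2.pos n k y hk h0 h1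
  · exact key fun n y h0 h1 => by simpa using B.S3.pos n k y hk h0 h1

/-- second product, `S ≤ 3` -/
theorem G_small {S : ℕ} (hS1 : 1 ≤ S) (hS3 : S ≤ 3) (k : ℕ) (hk : 1 ≤ k) :
    Nn (C.E8 * (sr C.p * Ts S k)) := by
  have key : (∀ (n : ℕ) (y : ℤ), 0 ≤ y → y < n → 0 ≤ Hf S 7 C.p n k y) →
      Nn (C.E8 * (sr C.p * Ts S k)) := fun h => C.Nn_E8.mul (Nn_of_Hf C.p_neg hS1 hS3 k h)
  interval_cases S
  · rcases Nat.lt_or_ge k 2 with h2 | h2
    · have hk1 : k = 1 := by omega
      subst hk1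
      refine ext_pos (m := 8) (e := e 1 1) (B := 32) (φ := sr C.p * Ts 1 1) (by norm_num) ?_
        (fun y => Hf 1 7 C.p (y.toNat + 1) 1 y) ?_ ?_ ?_ ?_
      · rw [mul_comm C.E8, mul_assoc, C.E8_mul, mul_one]
      · intro n
        rw [coeff_small C.p_neg (by norm_num) (by norm_num)]
        have h0 := Int.natCast_nonneg (e 1 1)
        have := Hf_fuel (S := 1) (g := 7) (by norm_num) (by norm_num) C.p_neg (n + 1)
          (((n : ℤ) - e 1 1).toNat + 1) 1 ((n : ℤ) - e 1 1) (by norm_num) (by push_cast; omega)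
          (by push_cast; omega)
        simpa using this
      · intro y hy
        exact Hf_neg (by norm_num) (by norm_num) C.p_neg _ _ _ (by norm_num) hy
      · intro y hy
        exact C.pos1 _ y hy (by push_cast; omega)
      · intro y h0 hy
        exact C.fin1 y h0 hy
    · exact key fun n y h0 h1 => by simpa using C.S1.pos n k y h2 h0 h1
  · exact key fun n y h0 h1 => by simpa using C.S2.pos n k y hk h0 h1
  · exact key fun n y h0 h1 => by simpa using C.S3.pos n k y hk h0 h1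

/-- first product, `S ≥ 4` -/
theorem F_large {S : ℕ} (hS4 : 4 ≤ S) (hS6 : S ≤ 6) (k : ℕ) (hk : 1 ≤ k) :
    Nn (sr B.p * Ts S k) := by
  obtain ⟨S', hS'⟩ : ∃ S', S + S' = 7 := ⟨7 - S, by omega⟩
  intro n
  rw [coeff_large B.p_neg (S := S) (S' := S') (by omega) (by omega) hS' k n]
  have hd := e_diff (S := S) (S' := S') (by omega) (by omega) hS' k
  have hk' : (1 : ℤ) ≤ k := by exact_mod_cast hk
  have h0 := Int.natCast_nonneg (e S' k)
  have hde : (e S k : ℤ) ≤ e S' k := by
    have : (0 : ℤ) ≤ k * (7 - 2 * S') := mul_nonneg (by positivity) (by omega)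
    omega
  rcases lt_or_ge ((n : ℤ) - e S' k) 0 with h1 | h1
  · rw [Hf_neg (by omega) (by omega) B.p_neg _ _ _ (by positivity) h1, B.p_neg _ h1]
    have := B.p_nonneg ((n : ℤ) - e S k)
    omega
  · have hm := B.p_mono (show (n : ℤ) - e S' k ≤ (n : ℤ) - e S k by omega)
    have hn : (n : ℤ) - e S' k < ((n + 1 : ℕ) : ℤ) := by push_cast; omega
    have key : 0 ≤ Hf S' 7 B.p (n + 1) k ((n : ℤ) - e S' k) →
        0 ≤ Hf S' 7 B.p (n + 1) k ((n : ℤ) - e S' k) +
          (B.p ((n : ℤ) - e S k) - B.p ((n : ℤ) - e S' k)) := fun h => by omega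
    have hS'1 : 1 ≤ S' := by omega
    have hS'3 : S' ≤ 3 := by omega
    interval_cases S'
    · rcases Nat.lt_or_ge k 2 with h2 | h2
      · have hk1 : k = 1 := by omega
        subst hk1
        rcases lt_or_ge ((n : ℤ) - e 1 1) 98 with h3 | h3
        · have := B.fin6 _ h1 h3 (n + 1) hn
          have e1 : (n : ℤ) - e S 1 = (n : ℤ) - e 1 1 + 5 := by push_cast at hd; omega
          rw [e1]
          push_cast at this ⊢
          omega
        · exact key (by simpa using B.pos1 _ _ h3 hn)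
      · exact key (by simpa using B.S1.pos _ k _ h2 h1 hn)
    · exact key (by simpa using B.S2.pos _ k _ hk h1 hn)
    · exact key (by simpa using B.S3.pos _ k _ hk h1 hn)

/-- second product, `S ≥ 4` -/
theorem G_large {S : ℕ} (hS4 : 4 ≤ S) (hS6 : S ≤ 6) (k : ℕ) (hk : 1 ≤ k) :
    Nn (sr C.p * Ts S k) := by
  obtain ⟨S', hS'⟩ : ∃ S', S + S' = 7 := ⟨7 - S, by omega⟩
  intro n
  rw [coeff_large C.p_neg (S := S) (S' := S') (by omega) (by omega) hS' k n]
  have hd := e_diff (S := S) (S' := S') (by omega) (by omega) hS' k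
  have hk' : (1 : ℤ) ≤ k := by exact_mod_cast hk
  have h0 := Int.natCast_nonneg (e S' k)
  have hde : (e S k : ℤ) + 1 ≤ e S' k := by
    have : (1 : ℤ) ≤ k * (7 - 2 * S') := by
      have h7 : (1 : ℤ) ≤ 7 - 2 * S' := by omega
      nlinarith
    omega
  rcases lt_or_ge ((n : ℤ) - e S' k) 0 with h1 | h1
  · rw [Hf_neg (by omega) (by omega) C.p_neg _ _ _ (by positivity) h1, C.p_neg _ h1]
    have := C.p_nonneg ((n : ℤ) - e S k)
    omega
  · have hn : (n : ℤ) - e S' k < ((n + 1 : ℕ) : ℤ) := by push_cast; omega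
    by_cases hex : (n : ℤ) - e S' k = 0 ∧ (n : ℤ) - e S k = 1
    · rw [hex.1, hex.2, Hf_small (by omega) (by omega) C.p_neg n k 0 (by positivity)
        (by have := fj_pos (S := S') (j := k) (by omega) (by positivity); omega)]
      decide
    · have hm := C.p_mono (show (n : ℤ) - e S' k ≤ (n : ℤ) - e S k by omega) (by
        by_contra hc
        push Not at hc
        exact hex hc)
      have key : 0 ≤ Hf S' 7 C.p (n + 1) k ((n : ℤ) - e S' k) →
          0 ≤ Hf S' 7 C.p (n + 1) k ((n : ℤ) - e S' k) +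
            (C.p ((n : ℤ) - e S k) - C.p ((n : ℤ) - e S' k)) := fun h => by omega
      have hS'1 : 1 ≤ S' := by omega
      have hS'3 : S' ≤ 3 := by omega
      interval_cases S'
      · rcases Nat.lt_or_ge k 2 with h2 | h2
        · have hk1 : k = 1 := by omega
          subst hk1
          rcases lt_or_ge ((n : ℤ) - e 1 1) 32 with h3 | h3
          · have := C.fin6 _ h1 h3 (n + 1) hn
            have e1 : (n : ℤ) - e S 1 = (n : ℤ) - e 1 1 + 5 := by push_cast at hd; omega
            rw [e1]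
            push_cast at this ⊢
            omega
          · exact key (by simpa using C.pos1 _ _ h3 hn)
        · exact key (by simpa using C.S1.pos _ k _ h2 h1 hn)
      · exact key (by simpa using C.S2.pos _ k _ hk h1 hn)
      · exact key (by simpa using C.S3.pos _ k _ hk h1 hn)

theorem F_all {S : ℕ} (hS1 : 1 ≤ S) (hS6 : S ≤ 6) (k : ℕ) (hk : 1 ≤ k) :
    Nn (B.E6 * (sr B.p * Ts S k)) := by
  rcases Nat.lt_or_ge S 4 with h | h
  · exact F_small hS1 (by omega) k hk
  · exact B.Nn_E6.mul (F_large h hS6 k hk)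

theorem G_all {S : ℕ} (hS1 : 1 ≤ S) (hS6 : S ≤ 6) (k : ℕ) (hk : 1 ≤ k) :
    Nn (C.E8 * (sr C.p * Ts S k)) := by
  rcases Nat.lt_or_ge S 4 with h | h
  · exact G_small hS1 (by omega) k hk
  · exact C.Nn_E8.mul (G_large h hS6 k hk)

end Pool.Agent.Q41.TT.Seven
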