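import Mathlib
import Pool.Agent.Q41.TT.Ser

/-!
# Partitions into the parts 1, 3, 5
-/

namespace Pool.Agent.Q41.TT.A

open PowerSeries

/-- periodic correction modulo 3 -/
def u3 (y : ℤ) : ℤ := if y % 3 = 0 then 0 else -10

/-- periodic correction modulo 5 -/
def u5 (y : ℤ) : ℤ := if y % 5 = 2 then -12 else if y % 5 = 3 then -6 else if y % 5 = 4 then -12
  else 0

/-- number of partitions of `y` into parts `1, 3, 5` -/
def p (y : ℤ) : ℤ := if y < 0 then 0 else (y ^ 2 + 9 * y + 30 + (u3 y + u5 y)) / 30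

/-- parts `1, 3` -/
def p2 (y : ℤ) : ℤ := if y < 0 then 0 else y / 3 + 1

/-- parts `1` -/
def p1 (y : ℤ) : ℤ := if y < 0 then 0 else 1

lemma p_neg : ∀ y < 0, p y = 0 := fun y hy => by simp [p, hy]
lemma p2_neg : ∀ y < 0, p2 y = 0 := fun y hy => by simp [p2, hy]
lemma p1_neg : ∀ y < 0, p1 y = 0 := fun y hy => by simp [p1, hy]

lemma dvd (y : ℤ) : (y ^ 2 + 9 * y + 30 + (u3 y + u5 y)) % 30 = 0 := by
  have h1 : u3 y = u3 (y % 30) := by unfold u3; rw [show y % 30 % 3 = y % 3 by omega]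
  have h2 : u5 y = u5 (y % 30) := by unfold u5; rw [show y % 30 % 5 = y % 5 by omega]
  have h3 : (y ^ 2 + 9 * y + 30 + (u3 y + u5 y)) % 30 =
      ((y % 30) ^ 2 + 9 * (y % 30) + 30 + (u3 (y % 30) + u5 (y % 30))) % 30 := by
    rw [← h1, ← h2]
    have : y ≡ y % 30 [ZMOD 30] := (Int.mod_modEq y 30).symm
    exact (((this.pow 2).add (this.mul_left 9)).add_right 30).add_right _
  rw [h3]
  have h4 : 0 ≤ y % 30 := by omega
  have h5 : y % 30 < 30 := by omega
  generalize y % 30 = r at *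
  interval_cases r <;> decide

lemma p_eq (y : ℤ) (hy : 0 ≤ y) : 30 * p y = y ^ 2 + 9 * y + 30 + (u3 y + u5 y) := by
  have h := dvd y
  rw [p, if_neg (by omega)]
  generalize y ^ 2 + 9 * y + 30 + (u3 y + u5 y) = w at *
  omega

lemma p_step (y : ℤ) : p y - p (y - 5) = p2 y := by
  rcases lt_or_ge y 0 with h | h
  · rw [p_neg y h, p_neg _ (by omega), p2_neg y h]; rfl
  rcases lt_or_ge y 5 with h5 | h5
  · interval_cases y <;> decide
  · have e1 := p_eq y h
    have e2 := p_eq (y - 5) (by omega)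
    have e3 : p2 y = y / 3 + 1 := by rw [p2, if_neg (by omega)]
    have e4 : u5 (y - 5) = u5 y := by unfold u5; rw [show (y - 5) % 5 = y % 5 by omega]
    have e5 : 30 * (p y - p (y - 5)) = 10 * y + 20 + (u3 y - u3 (y - 5)) := by
      rw [mul_sub, e1, e2, e4]; ring
    have e6 : u3 y - u3 (y - 5) = 30 * (y / 3) + 10 - 10 * y := by
      unfold u3; split_ifs <;> omega
    rw [e3]; omega

lemma p2_step (y : ℤ) : p2 y - p2 (y - 3) = p1 y := by
  unfold p2 p1; split_ifs <;> omega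

lemma p1_step (y : ℤ) : p1 y - p1 (y - 1) = if y = 0 then 1 else 0 := by
  unfold p1; split_ifs <;> omega

lemma sr_one {q : ℤ → ℤ} (h : ∀ n : ℕ, q n = if (n : ℤ) = 0 then 1 else 0) : sr q = 1 := by
  ext n
  rw [sr, coeff_mk, h n, coeff_one]
  simp

lemma sr_p : sr p * (1 - X ^ 5) * (1 - X ^ 3) * (1 - X ^ 1) = 1 := by
  rw [sr_mul (c := 5) (q := p2) p_neg (fun n => by exact_mod_cast p_step n),
    sr_mul (c := 3) (q := p1) p2_neg (fun n => by exact_mod_cast p2_step n),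
    sr_mul (c := 1) (q := fun y => if y = 0 then 1 else 0) p1_neg
      (fun n => by exact_mod_cast p1_step n)]
  exact sr_one fun n => rfl

/-- the generating function of odd parts is divisible by the series of `p` -/
lemma cnt_odd (P : ℕ → Prop) [DecidablePred P] (h1 : P 1) (h3 : P 3) (h5 : P 5) :
    ∃ R : ℤ⟦X⟧, Nn R ∧ cnt P = R * sr p := by
  have e1 := cnt_mul P (a := 5) (by norm_num) h5
  have e2 := cnt_mul (fun m => P m ∧ m ≠ 5) (a := 3) (by norm_num) ⟨h3, by norm_num⟩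
  have e3 := cnt_mul (fun m => (P m ∧ m ≠ 5) ∧ m ≠ 3) (a := 1) (by norm_num)
    ⟨⟨h1, by norm_num⟩, by norm_num⟩
  refine ⟨cnt (fun m => ((P m ∧ m ≠ 5) ∧ m ≠ 3) ∧ m ≠ 1), Nn_cnt _, ?_⟩
  rw [← e3, ← e2, ← e1]
  calc cnt P = cnt P * (sr p * (1 - X ^ 5) * (1 - X ^ 3) * (1 - X ^ 1)) := by rw [sr_p, mul_one]
    _ = _ := by ring

end Pool.Agent.Q41.TT.A
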