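import Mathlib
import Pool.Agent.Q41.TT.P135
import Pool.Agent.Q41.TT.Tab

/-!
# Pentagonal exponents: `S = 1`, `g = 3`
-/

namespace Pool.Agent.Q41.TT.AG

open Pool.Agent.Q41.TT Pool.Agent.Q41.TT.A

/-- rows modulo 3 -/
def R3 : List (List ℤ) := [[0, 0, 0], [0, 10, -10], [10, 0, -10]]

/-- rows modulo 5 -/
def R5 : List (List ℤ) := [[0, 0, 0, 0, 0], [-12, 6, -6, 12, 0], [24, 0, 6, -18, -12],
  [18, 12, -24, 0, -6], [0, 12, -6, 6, -12]]

lemma t3 (j y : ℤ) : tb R3 3 j y + tb R3 3 (j + 1) (y - vj 1 3 j) = u3 y - u3 (y - fj 1 j) := by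
  unfold tb u3 vj fj
  rw [show (j + 1) % 3 = (j % 3 + 1) % 3 by omega,
    show (y - (3 * (j + 1) - 1)) % 3 = (y % 3 - (3 * (j % 3 + 1) - 1)) % 3 by omega,
    show (y - 1 * (2 * j + 1)) % 3 = (y % 3 - (2 * (j % 3) + 1)) % 3 by omega]
  have h1 : 0 ≤ j % 3 := by omega
  have h2 : j % 3 < 3 := by omega
  have h3 : 0 ≤ y % 3 := by omega
  have h4 : y % 3 < 3 := by omega
  generalize j % 3 = a at *
  generalize y % 3 = b at *
  interval_cases a <;> interval_cases b <;> decide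

lemma t5 (j y : ℤ) : tb R5 5 j y + tb R5 5 (j + 1) (y - vj 1 3 j) = u5 y - u5 (y - fj 1 j) := by
  unfold tb u5 vj fj
  rw [show (j + 1) % 5 = (j % 5 + 1) % 5 by omega,
    show (y - (3 * (j + 1) - 1)) % 5 = (y % 5 - (3 * (j % 5 + 1) - 1)) % 5 by omega,
    show (y - 1 * (2 * j + 1)) % 5 = (y % 5 - (2 * (j % 5) + 1)) % 5 by omega]
  have h1 : 0 ≤ j % 5 := by omega
  have h2 : j % 5 < 5 := by omega
  have h3 : 0 ≤ y % 5 := by omega
  have h4 : y % 5 < 5 := by omega
  generalize j % 5 = a at *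
  generalize y % 5 = b at *
  interval_cases a <;> interval_cases b <;> decide

lemma b3 (j y : ℤ) : |tb R3 3 j y| ≤ 10 := by
  unfold tb
  have h1 : 0 ≤ j % 3 := by omega
  have h2 : j % 3 < 3 := by omega
  have h3 : 0 ≤ y % 3 := by omega
  have h4 : y % 3 < 3 := by omega
  generalize j % 3 = a at *
  generalize y % 3 = b at *
  interval_cases a <;> interval_cases b <;> decide

lemma b5 (j y : ℤ) : |tb R5 5 j y| ≤ 24 := by
  unfold tb
  have h1 : 0 ≤ j % 5 := by omega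
  have h2 : j % 5 < 5 := by omega
  have h3 : 0 ≤ y % 5 := by omega
  have h4 : y % 5 < 5 := by omega
  generalize j % 5 = a at *
  generalize y % 5 = b at *
  interval_cases a <;> interval_cases b <;> decide

lemma u3_bd (y : ℤ) : -10 ≤ u3 y ∧ u3 y ≤ 0 := by unfold u3; split_ifs <;> omega
lemma u5_bd (y : ℤ) : -12 ≤ u5 y ∧ u5 y ≤ 0 := by unfold u5; split_ifs <;> omega

theorem bdG (n : ℕ) (j y : ℤ) (hj : 0 ≤ j) (hy : 0 ≤ y) (hn : y < n) :
    |3 * (30 * Hf 1 3 p n j y - Am 1 3 9 j y - (tb R3 3 j y + tb R5 5 j y))| ≤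
      1 * (3 - 1) * Nc 1 3 j y + 200 := by
  refine bound (S := 1) (g := 3) (D := 30) (s := 9) (κ := 200) (p := p)
    (er := fun y => u3 y + u5 y) (Φ := fun j y => tb R3 3 j y + tb R5 5 j y) (by norm_num)
    (by norm_num) p_neg p_eq ?_ ?_ ?_ n j y hj hy hn
  · intro j y
    have h1 := t3 j y
    have h2 := t5 j y
    linarith
  · intro j z hj hz1 hz2
    have h1 := abs_le.1 (b3 (j + 1) (-z))
    have h2 := abs_le.1 (b5 (j + 1) (-z))
    simp only [Am, Nc]
    obtain ⟨m, hm⟩ : ∃ m, m = j + 1 := ⟨_, rfl⟩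
    rw [← hm] at h1 h2 hz2 ⊢
    have hm1 : 1 ≤ m := by omega
    obtain ⟨F, hF⟩ : ∃ F, F = tb R3 3 m (-z) + tb R5 5 m (-z) := ⟨_, rfl⟩
    rw [← hF]
    have hF1 : -34 ≤ F := by omega
    have hF2 : F ≤ 34 := by omega
    have e1 := mul_nonneg (sub_nonneg.2 hz1) (sub_nonneg.2 hm1)
    have e2 : 0 ≤ m * (m - z) := mul_nonneg (by omega) (by omega)
    rw [abs_le]
    constructor
    · nlinarith [sq_nonneg (m - 4)]
    · nlinarith [sq_nonneg (m - 4)]
  · intro j y hj hy hf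
    have h1 := abs_le.1 (b3 j y)
    have h2 := abs_le.1 (b5 j y)
    have h3 := u3_bd y
    have h4 := u5_bd y
    simp only [Am, Nc, fj] at hf ⊢
    obtain ⟨F, hF⟩ : ∃ F, F = tb R3 3 j y + tb R5 5 j y := ⟨_, rfl⟩
    obtain ⟨E, hE⟩ : ∃ E, E = u3 y + u5 y := ⟨_, rfl⟩
    rw [← hF, ← hE]
    have hF1 : -34 ≤ F := by omega
    have hF2 : F ≤ 34 := by omega
    have hE1 : -22 ≤ E := by omega
    have hE2 : E ≤ 0 := by omega
    have e1 : 0 ≤ y * (2 * j - y) := mul_nonneg hy (by omega)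
    rw [abs_le]
    constructor
    · nlinarith [sq_nonneg (6 * (y - j) + 31)]
    · nlinarith [sq_nonneg (3 * j - 2)]

lemma p_nonneg (y : ℤ) : 0 ≤ p y := by
  rcases lt_or_ge y 0 with h | h
  · rw [p_neg y h]
  · have h1 := p_eq y h
    have h3 := u3_bd y
    have h4 := u5_bd y
    nlinarith

theorem posG (n k : ℕ) (y : ℤ) (hk : 1 ≤ k) (hy : 0 ≤ y) (hn : y < n) :
    0 ≤ Hf 1 3 p n k y := by
  have hb := bdG n k y (by positivity) hy hn
  have h1 := abs_le.1 (b3 k y)
  have h2 := abs_le.1 (b5 k y)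
  have h3 := (abs_le.1 hb).1
  simp only [Am, Nc] at h3
  obtain ⟨F, hF⟩ : ∃ F, F = tb R3 3 k y + tb R5 5 k y := ⟨_, rfl⟩
  rw [← hF] at h3
  have hF1 : -34 ≤ F := by omega
  have key : 0 ≤ (6 * (k : ℤ) - 4) * y - 3 * k ^ 2 + 31 * k - 302 → 0 ≤ Hf 1 3 p n k y := by
    intro h
    nlinarith
  rcases Nat.lt_or_ge k 5 with h4 | h4
  · interval_cases k
    · rcases lt_or_ge y 137 with h5 | h5
      · exact chk_spec (by norm_num) (by norm_num) p_neg (B := 137) (by norm_num)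
          (by decide +kernel) h5 hn
      · exact key (by push_cast; linarith)
    · rcases lt_or_ge y 32 with h5 | h5
      · exact chk_spec (by norm_num) (by norm_num) p_neg (B := 32) (by norm_num)
          (by decide +kernel) h5 hn
      · exact key (by push_cast; linarith)
    · rcases lt_or_ge y 17 with h5 | h5
      · exact chk_spec (by norm_num) (by norm_num) p_neg (B := 17) (by norm_num)
          (by decide +kernel) h5 hn
      · exact key (by push_cast; linarith)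
    · rcases lt_or_ge y 12 with h5 | h5
      · exact chk_spec (by norm_num) (by norm_num) p_neg (B := 12) (by norm_num)
          (by decide +kernel) h5 hn
      · exact key (by push_cast; linarith)
  · have hk4 : (5 : ℤ) ≤ k := by exact_mod_cast h4
    rcases lt_or_ge y (fj 1 k) with h5 | h5
    · obtain ⟨n, rfl⟩ : ∃ m, n = m + 1 := ⟨n - 1, by omega⟩
      rw [Hf_small (by norm_num) (by norm_num) p_neg n k y (by positivity) h5]
      exact p_nonneg y
    · unfold fj at h5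
      refine key ?_
      nlinarith

end Pool.Agent.Q41.TT.AG
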