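import Mathlib
import Pool.Agent.Q41.TT.Ser

/-!
# Partitions with restricted parts and the inverse of an infinite product
-/

namespace Pool.Agent.Q41.TT

open PowerSeries PowerSeries.WithPiTopology

/-- the product of `1 - q ^ m` over the `m ≥ 1` with `P m`, a convergent product for the
topology of coefficientwise convergence (integers discrete) -/
noncomputable def prodInf (P : ℕ → Prop) [DecidablePred P] : ℤ⟦X⟧ :=
  letI : TopologicalSpace ℤ := ⊥
  ∏' i : ℕ, if P (i + 1) then 1 - X ^ (i + 1) else 1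

theorem prodInf_mul_cnt (P : ℕ → Prop) [DecidablePred P] : prodInf P * cnt P = 1 := by
  let _ : TopologicalSpace ℤ := ⊥
  have _ : DiscreteTopology ℤ := ⟨rfl⟩
  have h1 := Nat.Partition.hasProd_powerSeriesMk_card_restricted ℤ P
  have h2 : Multipliable (fun i : ℕ => if P (i + 1) then (1 : ℤ⟦X⟧) - X ^ (i + 1) else 1) := by
    have e1 : (fun i : ℕ => if P (i + 1) then (1 : ℤ⟦X⟧) - X ^ (i + 1) else 1) =
        fun i : ℕ => 1 + (if P (i + 1) then -(X : ℤ⟦X⟧) ^ (i + 1) else 0) := by
      funext i
      split_ifs <;> ring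
    rw [e1]
    apply multipliable_one_add_of_tendsto_order_atTop_nhds_top
    refine ENat.tendsto_nhds_top_iff_natCast_lt.mpr
      (fun n ↦ Filter.eventually_atTop.mpr ⟨n, ?_⟩)
    intro m hm
    split_ifs
    · rw [order_neg, order_X_pow]
      norm_cast
      exact Nat.lt_add_one_iff.mpr hm
    · rw [order_zero]
      exact ENat.natCast_lt_top n
  have h3 : cnt P = ∏' i : ℕ, if P (i + 1) then ∑' j : ℕ, (X : ℤ⟦X⟧) ^ ((i + 1) * j) else 1 :=
    h1.tprod_eq.symm
  unfold prodInf
  rw [h3, ← h2.tprod_mul h1.multipliable]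
  have h4 : ∀ i : ℕ, (if P (i + 1) then (1 : ℤ⟦X⟧) - X ^ (i + 1) else 1) *
      (if P (i + 1) then ∑' j : ℕ, (X : ℤ⟦X⟧) ^ ((i + 1) * j) else 1) = 1 := by
    intro i
    split_ifs
    · simp_rw [pow_mul]
      rw [mul_comm, tsum_pow_mul_one_sub_of_constantCoeff_eq_zero (by simp)]
    · ring
  rw [tprod_congr h4, tprod_one]

lemma constantCoeff_cnt (P : ℕ → Prop) [DecidablePred P] : constantCoeff (cnt P) = 1 := by
  rw [← coeff_zero_eq_constantCoeff_apply, cnt, coeff_mk]
  have h : Nat.Partition.restricted 0 P = Finset.univ := by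
    unfold Nat.Partition.restricted
    rw [Finset.filter_eq_self]
    intro x _
    rw [Nat.Partition.partition_zero_parts x]
    simp
  rw [h]
  simp

lemma constantCoeff_prodInf (P : ℕ → Prop) [DecidablePred P] :
    constantCoeff (prodInf P) = 1 := by
  have h := congrArg constantCoeff (prodInf_mul_cnt P)
  rw [map_mul, constantCoeff_cnt, map_one, mul_one] at h
  exact h

theorem inv_prodInf (P : ℕ → Prop) [DecidablePred P] : invOfUnit (prodInf P) 1 = cnt P := by
  have h1 : prodInf P * invOfUnit (prodInf P) 1 = 1 :=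
    mul_invOfUnit _ 1 (by rw [constantCoeff_prodInf]; rfl)
  calc invOfUnit (prodInf P) 1 = (prodInf P * cnt P) * invOfUnit (prodInf P) 1 := by
        rw [prodInf_mul_cnt, one_mul]
    _ = cnt P * (prodInf P * invOfUnit (prodInf P) 1) := by ring
    _ = cnt P := by rw [h1, mul_one]

end Pool.Agent.Q41.TT
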